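import Pool.Agent.H88.VG.Stm
import Pool.Agent.H88.VL.W1

/-! # VG-A1: a Poincare algebra embedded in a mw pure one, with a shift by `2 e`, is mw pure
(helper75; adapted from `VL/W1.lean` of helper95) -/

set_option autoImplicit false

open MvPolynomial Pool.Agent.Y129.TA Pool.Agent.Y129.TB Pool.Agent.Y143 Pool.Agent.X271.TN
open Pool.Agent.H88.VL Pool.Agent.H88.VL.W1

universe u v

namespace Pool.Agent.H88.VG.A1

theorem main : S_A1.{u, v} := by
  intro Ω _ _ q d ε i A B f t τ hq hA hB hP hid hfgr hfF hfN htN hτ0 hadj hpure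
  have hfin := hA.finite
  have hq0 : q ≠ 0 := by omega
  have hqΩ : (q : Ω) ≠ 0 := Nat.cast_ne_zero.2 hq0
  set j := 2 * d - i with hj
  have hij : i + j = 2 * d := by omega
  have hji : 2 * d - j = i := by omega
  -- the pairing
  let P : A.gr i →ₗ[Ω] Module.Dual Ω (A.gr j) :=
    LinearMap.mk₂ Ω (fun x y => τ ((x : A.H) * (y : A.H)))
      (fun x x' y => by rw [Submodule.coe_add, add_mul, map_add])
      (fun c x y => by rw [Submodule.coe_smul, smul_mul_assoc, map_smul])
      (fun x y y' => by rw [Submodule.coe_add, mul_add, map_add])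
      (fun c x y => by rw [Submodule.coe_smul, mul_smul_comm, map_smul])
  let Q : A.gr j →ₗ[Ω] Module.Dual Ω (A.gr i) :=
    LinearMap.mk₂ Ω (fun y x => τ ((x : A.H) * (y : A.H)))
      (fun x x' y => by rw [Submodule.coe_add, mul_add, map_add])
      (fun c x y => by rw [Submodule.coe_smul, mul_smul_comm, map_smul])
      (fun x y y' => by rw [Submodule.coe_add, add_mul, map_add])
      (fun c x y => by rw [Submodule.coe_smul, smul_mul_assoc, map_smul])
  have hPa : ∀ x y, P x y = τ ((x : A.H) * (y : A.H)) := fun _ _ => rfl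
  have hQa : ∀ y x, Q y x = τ ((x : A.H) * (y : A.H)) := fun _ _ => rfl
  have hmem : ∀ (x : A.gr i) (y : A.gr j), (x : A.H) * (y : A.H) ∈ A.gr (2 * d) := by
    intro x y
    rw [← hij]
    exact hA.mul_mem x.2 y.2
  have hPinj : ∀ x : A.gr i, (∀ y, P x y = 0) → x = 0 := by
    intro x hx
    apply Subtype.ext
    apply hP.perfect i hid x x.2
    intro y hy
    by_contra hne
    exact hτ0 _ (hmem x ⟨y, hy⟩) hne (hx ⟨y, hy⟩)
  have hQinj : ∀ y : A.gr j, (∀ x, Q y x = 0) → y = 0 := by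
    intro y hy
    apply Subtype.ext
    apply hP.perfect j (by omega) y y.2
    intro x hx
    rw [hji] at hx
    rw [hA.comm y.2 hx]
    by_contra hne
    have h1 : x * (y : A.H) ≠ 0 := by
      intro h0
      rw [h0, smul_zero] at hne
      exact hne rfl
    exact hτ0 _ (hmem ⟨x, hx⟩ y) h1 (hy ⟨x, hx⟩)
  have hPi : Function.Injective P := by
    rw [← LinearMap.ker_eq_bot, LinearMap.ker_eq_bot']
    intro x hx
    exact hPinj x fun y => by rw [hx]; rfl
  have hQi : Function.Injective Q := by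
    rw [← LinearMap.ker_eq_bot, LinearMap.ker_eq_bot']
    intro x hx
    exact hQinj x fun y => by rw [hx]; rfl
  have hd1 := LinearMap.finrank_le_finrank_of_injective hPi
  have hd2 := LinearMap.finrank_le_finrank_of_injective hQi
  rw [Subspace.dual_finrank_eq] at hd1 hd2
  have hPs : Function.Surjective P := by
    rw [← LinearMap.injective_iff_surjective_of_finrank_eq_finrank]
    · exact hPi
    · rw [Subspace.dual_finrank_eq]; omega
  -- the retraction
  let R : B.gr (i + 2 * ε) →ₗ[Ω] Module.Dual Ω (A.gr j) :=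
    LinearMap.mk₂ Ω (fun b y => t ((b : B.H) * f (y : A.H)))
      (fun x x' y => by rw [Submodule.coe_add, add_mul, map_add])
      (fun c x y => by rw [Submodule.coe_smul, smul_mul_assoc, map_smul])
      (fun x y y' => by rw [Submodule.coe_add, map_add, mul_add, map_add])
      (fun c x y => by rw [Submodule.coe_smul, map_smul, mul_smul_comm, map_smul])
  have hRa : ∀ b y, R b y = t ((b : B.H) * f (y : A.H)) := fun _ _ => rfl
  let e := LinearEquiv.ofBijective P ⟨hPi, hPs⟩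
  let g₀ : B.gr (i + 2 * ε) →ₗ[Ω] A.H := (A.gr i).subtype ∘ₗ e.symm.toLinearMap ∘ₗ R
  obtain ⟨g, hg⟩ := LinearMap.exists_extend g₀
  have hgm : ∀ b ∈ B.gr (i + 2 * ε), g b ∈ A.gr i := by
    intro b hb
    have h1 := LinearMap.congr_fun hg ⟨b, hb⟩
    have h2 : g b = ((e.symm (R ⟨b, hb⟩) : A.gr i) : A.H) := h1
    rw [h2]
    exact Submodule.coe_mem _
  have hgadj : ∀ b ∈ B.gr (i + 2 * ε), ∀ y ∈ A.gr j, τ (g b * y) = t (b * f y) := by
    intro b hb y hy
    have h1 := LinearMap.congr_fun hg ⟨b, hb⟩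
    have h2 : g b = ((e.symm (R ⟨b, hb⟩) : A.gr i) : A.H) := h1
    rw [h2]
    have h3 : P (e.symm (R ⟨b, hb⟩)) = R ⟨b, hb⟩ := e.apply_symm_apply _
    have h4 := LinearMap.congr_fun h3 ⟨y, hy⟩
    exact h4
  have huniq : ∀ x ∈ A.gr i, ∀ x' ∈ A.gr i, (∀ y ∈ A.gr j, τ (x * y) = τ (x' * y)) → x = x' := by
    intro x hx x' hx' h
    have h1 : (⟨x, hx⟩ : A.gr i) = ⟨x', hx'⟩ := by
      apply hPi
      ext y
      exact h y y.2
    exact congrArg Subtype.val h1
  have hgf : ∀ x ∈ A.gr i, g (f x) = x := by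
    intro x hx
    apply huniq _ (hgm _ (hfgr i x hx)) _ hx
    intro y hy
    rw [hgadj _ (hfgr i x hx) y hy]
    exact hadj x hx y hy
  have hgN : ∀ b ∈ B.gr (i + 2 * ε), g (B.N b) = A.N (g b) := by
    intro b hb
    apply huniq _ (hgm _ (hB.N_mem hb)) _ (hA.N_mem (hgm b hb))
    intro y hy
    rw [hgadj _ (hB.N_mem hb) y hy]
    have h1 : t (B.N b * f y) = -t (b * f (A.N y)) := by
      have h2 : b * f y ∈ B.gr (2 * (d + 2 * ε)) := by
        have := hB.mul_mem hb (hfgr j y hy)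
        rwa [show i + 2 * ε + (j + 2 * ε) = 2 * (d + 2 * ε) by omega] at this
      have h3 := htN _ h2
      rw [hB.N_mul, map_add, hfN] at h3
      exact eq_neg_of_add_eq_zero_left h3
    have h4 : τ (A.N (g b) * y) = -τ (g b * A.N y) := by
      have h5 : g b * y ∈ A.gr (2 * d) := by
        have := hA.mul_mem (hgm b hb) hy
        rwa [hij] at this
      have h6 := N_top hq hA hP h5
      have h7 := congrArg τ h6
      rw [hA.N_mul, map_add, map_zero] at h7
      exact eq_neg_of_add_eq_zero_left h7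
    rw [h1, h4, hgadj b hb _ (hA.N_mem hy)]
  -- the filtration
  obtain ⟨M, hM, hMF, hMw⟩ := hpure
  have hpow : ∀ (a : ℕ) (x : A.H), f ((A.N ^ a) x) = (B.N ^ a) (f x) := by
    intro a
    induction a with
    | zero => intro x; rfl
    | succ a ih =>
      intro x
      rw [pow_succ', Module.End.mul_apply, pow_succ', Module.End.mul_apply, ← ih, hfN]
  have hNpow : ∀ (a : ℕ) (b : B.H), b ∈ B.gr (i + 2 * ε) → (B.N ^ a) b ∈ B.gr (i + 2 * ε) := by
    intro a
    induction a with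
    | zero => intro x hx; exact hx
    | succ a ih =>
      intro x hx
      rw [pow_succ', Module.End.mul_apply]
      exact hB.N_mem (ih x hx)
  have hgpow : ∀ (a : ℕ) (b : B.H), b ∈ B.gr (i + 2 * ε) → g ((B.N ^ a) b) = (A.N ^ a) (g b) := by
    intro a
    induction a with
    | zero => intro x _; rfl
    | succ a ih =>
      intro x hx
      rw [pow_succ', Module.End.mul_apply, pow_succ', Module.End.mul_apply, ← ih x hx,
        hgN _ (hNpow a x hx)]
  have hANpow : ∀ (a : ℕ) (b : A.H), b ∈ A.gr i → (A.N ^ a) b ∈ A.gr i := by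
    intro a
    induction a with
    | zero => intro x hx; exact hx
    | succ a ih =>
      intro x hx
      rw [pow_succ', Module.End.mul_apply]
      exact hA.N_mem (ih x hx)
  have hfun : ∀ (s : ℤ) (x : B.H), x ∈ M s → f (g x) ∈ M s := fun s x hx =>
    IsMonodromyFiltrationOn.functorial hM hM (f ∘ₗ g)
      (fun y hy => hfgr i _ (hgm y hy)) one_ne_zero
      (fun y hy => by
        rw [one_smul, LinearMap.comp_apply, LinearMap.comp_apply, hgN y hy, hfN]) s hx
  refine ⟨fun a => A.gr i ⊓ (M a).comap f, ⟨?_, ?_, ?_, ?_, ?_, ?_, ?_⟩, ?_, ?_⟩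
  · intro a b hab
    exact inf_le_inf_left _ (Submodule.comap_mono (hM.mono hab))
  · obtain ⟨b, hb⟩ := hM.bot
    refine ⟨b, eq_bot_iff.2 fun x hx => ?_⟩
    obtain ⟨h1, h2⟩ := Submodule.mem_inf.1 hx
    rw [Submodule.mem_comap, hb, Submodule.mem_bot] at h2
    rw [Submodule.mem_bot, ← hgf x h1, h2, map_zero]
  · obtain ⟨b, hb⟩ := hM.top
    refine ⟨b, le_antisymm inf_le_left fun x hx => ?_⟩
    refine Submodule.mem_inf.2 ⟨hx, ?_⟩
    rw [Submodule.mem_comap, hb]
    exact hfgr i x hx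
  · intro a
    exact inf_le_left
  · intro a x hx
    obtain ⟨h1, h2⟩ := Submodule.mem_inf.1 hx
    refine Submodule.mem_inf.2 ⟨hA.N_mem h1, ?_⟩
    rw [Submodule.mem_comap, ← hfN]
    exact hM.map a _ h2
  · intro a x hx hNx
    obtain ⟨h1, h2⟩ := Submodule.mem_inf.1 hx
    obtain ⟨h3, h4⟩ := Submodule.mem_inf.1 hNx
    refine Submodule.mem_inf.2 ⟨h1, ?_⟩
    rw [Submodule.mem_comap, hpow] at h4
    exact hM.inj a _ h2 h4
  · intro a y hy
    obtain ⟨h1, h2⟩ := Submodule.mem_inf.1 hy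
    obtain ⟨z, hz, hyz⟩ := hM.surj a (f y) h2
    have hzS : z ∈ B.gr (i + 2 * ε) := hM.le _ hz
    refine ⟨g z, Submodule.mem_inf.2 ⟨hgm z hzS, hfun a z hz⟩, ?_⟩
    refine Submodule.mem_inf.2 ⟨sub_mem h1 (hANpow a _ (hgm z hzS)), ?_⟩
    have h3 := hfun _ _ hyz
    rw [map_sub, hgf y h1, hgpow a z hzS] at h3
    exact h3
  · intro a x hx
    obtain ⟨h1, h2⟩ := Submodule.mem_inf.1 hx
    refine Submodule.mem_inf.2 ⟨hA.F_mem h1, ?_⟩
    have h3 : f (A.F x) = ((q : Ω) ^ ε)⁻¹ • B.F (f x) := by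
      rw [hfF, smul_smul, inv_mul_cancel₀ (pow_ne_zero ε hqΩ), one_smul]
    rw [Submodule.mem_comap, h3]
    exact Submodule.smul_mem _ _ (hMF a _ h2)
  · intro a α x hx hx' hα
    obtain ⟨h1, h2⟩ := Submodule.mem_inf.1 hx
    have h3 : f x ∉ M (a - 1) := fun h => hx' (Submodule.mem_inf.2 ⟨h1, h⟩)
    obtain ⟨h4, h5⟩ := Submodule.mem_inf.1 hα
    have h6 : B.F (f x) - ((q : Ω) ^ ε * α) • f x ∈ M (a - 1) := by
      have h7 : B.F (f x) - ((q : Ω) ^ ε * α) • f x = (q : Ω) ^ ε • f (A.F x - α • x) := by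
        rw [map_sub, map_smul, smul_sub, hfF, smul_smul]
      rw [h7]
      exact Submodule.smul_mem _ _ h5
    have h8 := weil_twist hq0 (hMw a _ _ h2 h3 h6) (-(ε : ℤ))
    have e1 : (q : Ω) ^ (-(ε : ℤ)) * ((q : Ω) ^ ε * α) = α := by
      rw [zpow_neg, zpow_natCast, ← mul_assoc, inv_mul_cancel₀ (pow_ne_zero ε hqΩ), one_mul]
    have e2 : a + ((i + 2 * ε : ℕ) : ℤ) + 2 * (-(ε : ℤ)) = a + i := by push_cast; ring
    rw [e1, e2] at h8
    exact h8

end Pool.Agent.H88.VG.A1
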