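import Pool.Agent.H88.VG.Stm

/-!
# Varieties of subspaces, A2: the locus is closed
-/

set_option autoImplicit false

open MvPolynomial Pool.Agent.Y129.TA Pool.Agent.Y129.TB Pool.Agent.H88.VL

universe u v

namespace Pool.Agent.H88.VG.A2

/-- A polynomial over `C` with zero values on `K` is zero. -/
theorem eq_zero_of_eval {C K : Type} [Field C] [Field K] [Algebra K C] [Infinite K] {σ : Type}
    (p : MvPolynomial σ C) (h : ∀ x : σ → K, eval (fun s => algebraMap K C (x s)) p = 0) : p = 0 := by
  refine MvPolynomial.funext_set (fun _ => Set.range (algebraMap K C))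
    (fun _ => Set.infinite_range_of_injective (algebraMap K C).injective) fun x hx => ?_
  choose y hy using fun s => hx s (Set.mem_univ s)
  rw [map_zero, ← h y]
  congr 2
  funext s
  exact (hy s).symm

/-- The polynomial obtained by the substitution `v i = ∑ l, g i l • u (b i) l`. -/
noncomputable def sub {K : Type} [Field K] {k n : ℕ} (P : MvPolynomial (Fin k × Fin n) K) {J : Type}
    (r : J → ℕ) (b : Fin k → J) (g : ∀ i, Fin (r (b i)) → K) :
    MvPolynomial ((j : J) × Fin (r j) × Fin n) K :=
  aeval (fun t : Fin k × Fin n => ∑ l, MvPolynomial.C (g t.1 l) * X ⟨b t.1, l, t.2⟩) P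

theorem aeval_sub {C K : Type} [Field C] [Field K] [Algebra K C] {k n : ℕ}
    (P : MvPolynomial (Fin k × Fin n) K) {J : Type} (r : J → ℕ) (b : Fin k → J)
    (g : ∀ i, Fin (r (b i)) → K) (v : ∀ j, Fin (r j) → Fin n → C) :
    aeval (fun t : (j : J) × Fin (r j) × Fin n => v t.1 t.2.1 t.2.2) (sub P r b g) =
      value C P fun i => ∑ l, algebraMap K C (g i l) • v (b i) l := by
  rw [sub, value]
  have : (aeval (fun t : (j : J) × Fin (r j) × Fin n => v t.1 t.2.1 t.2.2)).comp
      (aeval (fun t : Fin k × Fin n => ∑ l, MvPolynomial.C (g t.1 l) * X ⟨b t.1, l, t.2⟩) :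
        MvPolynomial (Fin k × Fin n) K →ₐ[K] MvPolynomial ((j : J) × Fin (r j) × Fin n) K) =
      (aeval (fun t : Fin k × Fin n =>
        (∑ l, algebraMap K C (g t.1 l) • v (b t.1) l) t.2) : MvPolynomial (Fin k × Fin n) K →ₐ[K] C) := by
    apply MvPolynomial.algHom_ext
    intro t
    rw [AlgHom.comp_apply, aeval_X, aeval_X, map_sum, Finset.sum_apply]
    refine Finset.sum_congr rfl fun l _ => ?_
    rw [map_mul, aeval_X, Pi.smul_apply, smul_eq_mul]
    congr 1
    exact MvPolynomial.aeval_C _ _
  exact congrArg (fun φ => φ P) this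

/-- The polynomial in the coefficients. -/
noncomputable def coef (C : Type) {K : Type} [Field C] [Field K] [Algebra K C] {k n : ℕ}
    (P : MvPolynomial (Fin k × Fin n) K) {J : Type} (r : J → ℕ) (b : Fin k → J)
    (v : ∀ j, Fin (r j) → Fin n → C) : MvPolynomial ((i : Fin k) × Fin (r (b i))) C :=
  aeval (fun t : Fin k × Fin n => ∑ l, MvPolynomial.C (v (b t.1) l t.2) * X ⟨t.1, l⟩) P

theorem eval_coef {C K : Type} [Field C] [Field K] [Algebra K C] {k n : ℕ}
    (P : MvPolynomial (Fin k × Fin n) K) {J : Type} (r : J → ℕ) (b : Fin k → J)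
    (v : ∀ j, Fin (r j) → Fin n → C) (g : ∀ i, Fin (r (b i)) → C) :
    eval (fun s : (i : Fin k) × Fin (r (b i)) => g s.1 s.2) (coef C P r b v) =
      value C P fun i => ∑ l, g i l • v (b i) l := by
  rw [coef, value, ← MvPolynomial.coe_aeval_eq_eval]
  have : ((aeval (fun s : (i : Fin k) × Fin (r (b i)) => g s.1 s.2) :
      MvPolynomial ((i : Fin k) × Fin (r (b i))) C →ₐ[C] C).restrictScalars K).comp
      (aeval (fun t : Fin k × Fin n => ∑ l, MvPolynomial.C (v (b t.1) l t.2) * X ⟨t.1, l⟩) :
        MvPolynomial (Fin k × Fin n) K →ₐ[K] MvPolynomial ((i : Fin k) × Fin (r (b i))) C) =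
      (aeval (fun t : Fin k × Fin n =>
        (∑ l, g t.1 l • v (b t.1) l) t.2) : MvPolynomial (Fin k × Fin n) K →ₐ[K] C) := by
    apply MvPolynomial.algHom_ext
    intro t
    rw [AlgHom.comp_apply, aeval_X, aeval_X, AlgHom.restrictScalars_apply, map_sum,
      Finset.sum_apply]
    refine Finset.sum_congr rfl fun l _ => ?_
    rw [map_mul, aeval_X, Pi.smul_apply, smul_eq_mul, mul_comm]
    congr 1
    exact MvPolynomial.aeval_C _ _
  exact congrArg (fun φ => φ P) this

theorem main : S_A2 := by
  intro C K _ _ _ _ k n c h J _ r b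
  refine ⟨inferInstanceAs (Finite J), fun x hx j => hx.1 j, ?_⟩
  refine ⟨{P | ∃ (j : Fin c) (g : ∀ i, Fin (r (b i)) → K), P = sub (h j) r b g}, ?_⟩
  intro v hv
  constructor
  · rintro hx P ⟨j, g, rfl⟩
    refine (aeval_sub (h j) r b g v).trans (hx.2 _ (fun i => ?_) j)
    exact Submodule.sum_mem _ fun l _ => Submodule.smul_mem _ _ (Submodule.subset_span ⟨l, rfl⟩)
  · intro hP
    refine ⟨fun j => ?_, fun w hw j => ?_⟩
    · have := finrank_span_eq_card (hv j)
      rw [Fintype.card_fin] at this
      exact this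
    · choose G hG using fun i => (Submodule.mem_span_range_iff_exists_fun C).1 (hw i)
      have h0 : coef C (h j) r b v = 0 := by
        refine eq_zero_of_eval (K := K) _ fun x => ?_
        have h1 := hP (sub (h j) r b fun i l => x ⟨i, l⟩) ⟨j, _, rfl⟩
        have h2 := (aeval_sub (h j) r b (fun i l => x ⟨i, l⟩) v).symm.trans h1
        have h3 := eval_coef (h j) r b v fun i l => algebraMap K C (x ⟨i, l⟩)
        exact h3.trans h2
      have h4 := eval_coef (h j) r b v G
      rw [h0, map_zero] at h4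
      have h5 : (fun i => ∑ l, G i l • v (b i) l) = w := funext fun i => hG i
      exact (congrArg (value C (h j)) h5).symm.trans h4.symm

end Pool.Agent.H88.VG.A2
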