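import Pool.Agent.H88.VG.Stm

/-!
# VG-A3: inverse images, the empty set, the product with a Grassmannian are closed
-/

set_option autoImplicit false

open MvPolynomial Pool.Agent.Y129.TA Pool.Agent.Y129.TB Pool.Agent.H88.VL

universe u v

namespace Pool.Agent.H88.VG.A3

open Pool.Agent.H88.VG

theorem main_a : S_A3 := by
  intro C K _ _ _ n X Y f B hX hB
  obtain ⟨SX, hSX⟩ := hX.eqs
  obtain ⟨SB, hSB⟩ := hB.eqs
  refine ⟨hX.finJ, fun x hx j => hX.rank x hx.1 j, ?_⟩
  let φ : ((j : Y.J) × Fin (Y.r j) × Fin n) → ((j : X.J) × Fin (X.r j) × Fin n) :=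
    fun t => ⟨f.a t.1, Fin.cast (f.rank t.1).symm t.2.1, t.2.2⟩
  refine ⟨SX ∪ (fun P => rename φ P) '' SB, ?_⟩
  intro v hv
  let v' : ∀ j, Fin (Y.r j) → Fin n → C := fun j i => v (f.a j) (Fin.cast (f.rank j).symm i)
  have hv' : ∀ j, LinearIndependent C (v' j) := by
    intro j
    exact (hv (f.a j)).comp _ (Fin.cast_injective _)
  have hsp : f.app (spans v) = spans v' := by
    funext j
    change Submodule.span C (Set.range (v (f.a j))) = Submodule.span C (Set.range (v' j))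
    congr 1
    ext y
    constructor
    · rintro ⟨i, rfl⟩
      exact ⟨Fin.cast (f.rank j) i, rfl⟩
    · rintro ⟨i, rfl⟩
      exact ⟨_, rfl⟩
  have h1 : spans v ∈ X.pts ↔ ∀ P ∈ SX, aeval (fun t => v t.1 t.2.1 t.2.2) P = 0 := hSX v hv
  have h2 : spans v' ∈ B ↔ ∀ P ∈ SB, aeval (fun t => v' t.1 t.2.1 t.2.2) P = 0 := hSB v' hv'
  have h3 : ∀ P : MvPolynomial ((j : Y.J) × Fin (Y.r j) × Fin n) K,
      aeval (fun t : (j : X.J) × Fin (X.r j) × Fin n => v t.1 t.2.1 t.2.2) (rename φ P) =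
        aeval (fun t : (j : Y.J) × Fin (Y.r j) × Fin n => v' t.1 t.2.1 t.2.2) P := by
    intro P
    rw [aeval_rename]
    rfl
  change (spans v ∈ X.pts ∧ f.app (spans v) ∈ B) ↔ _
  rw [hsp, h1, h2]
  constructor
  · rintro ⟨ha, hb⟩ P (hP | ⟨P', hP', rfl⟩)
    · exact ha P hP
    · exact (h3 P').trans (hb P' hP')
  · intro ha
    refine ⟨fun P hP => ha P (Or.inl hP), fun P hP => ?_⟩
    exact (h3 P).symm.trans (ha _ (Or.inr ⟨P, hP, rfl⟩))

theorem main_b : S_A4 := by
  intro C K _ _ _ n X hX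
  refine ⟨hX.finJ, fun x hx => absurd hx (Set.notMem_empty x), ?_⟩
  refine ⟨{1}, ?_⟩
  intro v _
  constructor
  · intro h
    exact absurd h (Set.notMem_empty _)
  · intro h
    have := h 1 rfl
    rw [map_one] at this
    exact absurd this one_ne_zero

theorem main_c : S_A5 := by
  intro C K _ _ _ n X s hX
  obtain ⟨SX, hSX⟩ := hX.eqs
  have := hX.finJ
  refine ⟨inferInstanceAs (Finite (Option X.J)), ?_, ?_⟩
  · rintro z ⟨hz1, hz2⟩ j
    rcases j with _ | j
    · exact hz2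
    · exact hX.rank _ hz1 j
  let r' : Option X.J → ℕ := fun o => o.elim s X.r
  let φ : ((j : X.J) × Fin (X.r j) × Fin n) → ((j : Option X.J) × Fin (r' j) × Fin n) :=
    fun t => ⟨some t.1, t.2.1, t.2.2⟩
  refine ⟨(fun P => rename φ P) '' SX, ?_⟩
  intro v hv
  let v' : ∀ j, Fin (X.r j) → Fin n → C := fun j => v (some j)
  have hv' : ∀ j, LinearIndependent C (v' j) := fun j => hv (some j)
  have h2 : spans v' ∈ X.pts ↔ ∀ P ∈ SX, aeval (fun t => v' t.1 t.2.1 t.2.2) P = 0 := hSX v' hv'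
  have h3 : ∀ P : MvPolynomial ((j : X.J) × Fin (X.r j) × Fin n) K,
      aeval (fun t : (j : Option X.J) × Fin (r' j) × Fin n => v t.1 t.2.1 t.2.2) (rename φ P) =
        aeval (fun t : (j : X.J) × Fin (X.r j) × Fin n => v' t.1 t.2.1 t.2.2) P := by
    intro P
    rw [aeval_rename]
    rfl
  have h4 : Module.finrank C (spans v none) = s := by
    have := finrank_span_eq_card (hv none)
    rw [Fintype.card_fin] at this
    exact this
  change ((fun i => spans v (some i)) ∈ X.pts ∧ Module.finrank C (spans v none) = s) ↔ _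
  have h5 : (fun i => spans v (some i)) = spans v' := rfl
  rw [h5, h2]
  constructor
  · rintro ⟨ha, -⟩ P ⟨P', hP', rfl⟩
    exact (h3 P').trans (ha P' hP')
  · intro ha
    refine ⟨fun P hP => ?_, h4⟩
    exact (h3 P).symm.trans (ha _ ⟨P, hP, rfl⟩)

end Pool.Agent.H88.VG.A3
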