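import Pool.Agent.H88.VG.Stm

/-!
# Varieties of subspaces, A6: incidence is closed
-/

set_option autoImplicit false

open MvPolynomial Pool.Agent.Y129.TA Pool.Agent.Y129.TB Pool.Agent.H88.VL

universe u v

namespace Pool.Agent.H88.VG.A6

/-- A family of `m` vectors of `C^n` is independent if and only if a minor of size `m` is not zero. -/
theorem linearIndependent_iff_minor {C : Type} [Field C] {m n : ℕ} (w : Fin m → Fin n → C) :
    LinearIndependent C w ↔ ∃ e : Fin m → Fin n, (Matrix.of fun i i' => w i (e i')).det ≠ 0 := by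
  constructor
  · intro hw
    -- the columns generate
    have htop : Submodule.span C (Set.range fun l : Fin n => fun i => w i l) = ⊤ := by
      have h1 : (Matrix.of w).rank = m := by
        have := LinearIndependent.rank_matrix (M := Matrix.of w) hw
        simpa using this
      rw [Matrix.rank_eq_finrank_span_cols] at h1
      refine Submodule.eq_top_of_finrank_eq ?_
      rw [Module.finrank_fintype_fun_eq_card, Fintype.card_fin]
      exact h1
    have hm : Module.finrank C ↥(Submodule.span C (Set.range fun l : Fin n => fun i => w i l)) = m := by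
      rw [htop, finrank_top, Module.finrank_fintype_fun_eq_card, Fintype.card_fin]
    obtain ⟨f, hf, _, hfi⟩ := Submodule.exists_fun_fin_finrank_span_eq C
      (Set.range fun l : Fin n => fun i => w i l)
    choose e he using fun i => hf i
    refine ⟨fun i => e (Fin.cast hm.symm i), ?_⟩
    have h2 : LinearIndependent C (fun i : Fin m => f (Fin.cast hm.symm i)) :=
      hfi.comp _ (Fin.cast_injective _)
    have h3 : (Matrix.of fun i i' => w i (e (Fin.cast hm.symm i'))).col =
        fun i : Fin m => f (Fin.cast hm.symm i) := by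
      funext i i'
      exact congrFun (he (Fin.cast hm.symm i)) i'
    rw [← h3, Matrix.linearIndependent_cols_iff_isUnit, Matrix.isUnit_iff_isUnit_det] at h2
    exact h2.ne_zero
  · rintro ⟨e, he⟩
    have h1 : LinearIndependent C (Matrix.of fun i i' => w i (e i')).row := by
      rw [Matrix.linearIndependent_rows_iff_isUnit, Matrix.isUnit_iff_isUnit_det]
      exact isUnit_iff_ne_zero.2 he
    exact LinearIndependent.of_comp (LinearMap.funLeft C C e) h1

theorem main : S_A6 := by
  intro C K _ _ _ n X l j hX
  obtain ⟨hfin, hrank, S, hS⟩ := hX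
  refine ⟨hfin, fun x hx i => hrank x hx.1 i, ?_⟩
  refine ⟨S ∪ {P | ∃ (b : Fin (X.r l)) (e : Fin (X.r j + 1) → Fin n),
    P = (Matrix.of fun i i' : Fin (X.r j + 1) =>
      (Fin.cons (MvPolynomial.X ⟨l, b, e i'⟩) (fun a => MvPolynomial.X ⟨j, a, e i'⟩) :
        Fin (X.r j + 1) → MvPolynomial ((j : X.J) × Fin (X.r j) × Fin n) K) i).det}, ?_⟩
  intro v hv
  -- the value of the determinant
  have hdet : ∀ (b : Fin (X.r l)) (e : Fin (X.r j + 1) → Fin n),
      aeval (fun t : (j : X.J) × Fin (X.r j) × Fin n => v t.1 t.2.1 t.2.2)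
        (Matrix.of fun i i' : Fin (X.r j + 1) =>
          (Fin.cons (MvPolynomial.X ⟨l, b, e i'⟩) (fun a => MvPolynomial.X ⟨j, a, e i'⟩) :
            Fin (X.r j + 1) → MvPolynomial ((j : X.J) × Fin (X.r j) × Fin n) K) i).det =
      (Matrix.of fun i i' : Fin (X.r j + 1) =>
        (Fin.cons (v l b) (v j) : Fin (X.r j + 1) → Fin n → C) i (e i')).det := by
    intro b e
    rw [AlgHom.map_det]
    congr 1
    ext i i'
    refine Fin.cases ?_ (fun a => ?_) i
    · simp
    · simp
  have hmem : ∀ b : Fin (X.r l), v l b ∈ Submodule.span C (Set.range (v j)) ↔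
      ∀ e : Fin (X.r j + 1) → Fin n, (Matrix.of fun i i' : Fin (X.r j + 1) =>
        (Fin.cons (v l b) (v j) : Fin (X.r j + 1) → Fin n → C) i (e i')).det = 0 := by
    intro b
    have h1 := linearIndependent_finCons (K := C) (v := v j) (x := v l b)
    rw [linearIndependent_iff_minor] at h1
    constructor
    · intro hb e
      by_contra hne
      exact (h1.1 ⟨e, hne⟩).2 hb
    · intro hb
      by_contra hne
      obtain ⟨e, he⟩ := h1.2 ⟨hv j, hne⟩
      exact he (hb e)
  constructor
  · rintro ⟨hx, hle⟩ P (hP | ⟨b, e, rfl⟩)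
    · exact (hS v hv).1 hx P hP
    · refine (hdet b e).trans ((hmem b).1 (hle ?_) e)
      exact Submodule.subset_span ⟨b, rfl⟩
  · intro hP
    refine ⟨(hS v hv).2 fun P hP' => hP P (Or.inl hP'), Submodule.span_le.2 ?_⟩
    rintro _ ⟨b, rfl⟩
    refine (hmem b).2 fun e => ?_
    exact (hdet b e).symm.trans (hP _ (Or.inr ⟨b, e, rfl⟩))

end Pool.Agent.H88.VG.A6
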