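import Pool.Agent.H88.VG.Stm

/-!
# VG-B1: the map `(M, M', x) -> (M', x)` is well defined
-/

set_option autoImplicit false

open MvPolynomial Pool.Agent.Y129.TA Pool.Agent.Y129.TB Pool.Agent.H88.VL

universe u v

namespace Pool.Agent.H88.VG.B1

open Pool.Agent.H88.VG

theorem main : S_B1 := by
  intro C K _ _ _ k n c h s hs
  have hr : ∀ o, (Qs (C := C) h s).r (fa k s o) = (St C h s).r o := by
    intro o
    rcases o with _ | i
    · rfl
    · by_cases hi : i.val = s
      · have h1 : fa k s (some i) = none := by simp [fa, hi]
        rw [h1]
        change 1 = strk k s (some i)
        simp [strk, hi]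
      · have h1 : fa k s (some i) = some (some (some i)) := by simp [fa, hi]
        rw [h1]
        change strk k (s + 1) (some i) = strk k s (some i)
        simp only [strk, Option.elim]
        by_cases h2 : i.val < s
        · rw [if_pos h2, if_pos (by omega)]
        · rw [if_neg h2, if_neg (by omega)]
  refine ⟨hr, ?_⟩
  intro z hz
  obtain ⟨⟨⟨hz1, hz2⟩, hz3, hz4⟩, hz5, hz6⟩ := hz
  refine ⟨?_, ?_⟩
  · intro o
    rcases o with _ | i
    · exact hz3
    · by_cases hi : i.val = s
      · have h1 : fa k s (some i) = none := by simp [fa, hi]
        have h2 : strk k s (some i) = 1 := by simp [strk, hi]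
        have h3 : Module.finrank C (z (fa k s (some i))) = 1 := by
          rw [h1]
          exact hz5
        exact h3.trans h2.symm
      · have h1 : fa k s (some i) = some (some (some i)) := by simp [fa, hi]
        have h2 : strk k (s + 1) (some i) = strk k s (some i) := by
          simp only [strk, Option.elim]
          by_cases h2 : i.val < s
          · rw [if_pos h2, if_pos (by omega)]
          · rw [if_neg h2, if_neg (by omega)]
        have h3 : Module.finrank C (z (fa k s (some i))) = strk k (s + 1) (some i) := by
          rw [h1]
          exact hz1 (some i)
        exact h3.trans h2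
  · intro v hv
    refine hz2 v ?_
    intro i
    have hvi : v i ∈ z (fa k s (stb k s i)) := hv i
    change v i ∈ z (some (some (stb k (s + 1) i)))
    rcases lt_trichotomy i.val s with hi | hi | hi
    · have h1 : stb k s i = none := by simp [stb, hi]
      have h2 : stb k (s + 1) i = none := by
        simp only [stb]
        rw [if_pos (by omega)]
      rw [h2]
      rw [h1] at hvi
      exact hz4 hvi
    · have h1 : stb k s i = some i := by simp [stb, hi]
      have h2 : stb k (s + 1) i = none := by
        simp only [stb]
        rw [if_pos (by omega)]
      have h3 : fa k s (some i) = none := by simp [fa, hi]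
      rw [h2]
      rw [h1, h3] at hvi
      exact hz6 hvi
    · have h1 : stb k s i = some i := by
        simp only [stb]
        rw [if_neg (by omega)]
      have h2 : stb k (s + 1) i = some i := by
        simp only [stb]
        rw [if_neg (by omega)]
      have h3 : fa k s (some i) = some (some (some i)) := by
        simp only [fa]
        rw [if_neg (by omega)]
      rw [h2]
      rw [h1, h3] at hvi
      exact hvi

end Pool.Agent.H88.VG.B1
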