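import Pool.Agent.H88.VG.Stm

/-!
# Varieties of subspaces, B2: the map of one step is bijective off the closed subset
-/

set_option autoImplicit false

open MvPolynomial Pool.Agent.Y129.TA Pool.Agent.Y129.TB Pool.Agent.H88.VL

universe u v

namespace Pool.Agent.H88.VG.B2

/-- The sum of `M'` and of a line not contained in `M'`. -/
theorem finrank_sup {C : Type} [Field C] {n s : ℕ} {M x : Submodule C (Fin n → C)}
    (hM : Module.finrank C M = s) (hx : Module.finrank C x = 1) (h : ¬ x ≤ M) :
    Module.finrank C ↥(M ⊔ x) = s + 1 := by
  have h1 := Submodule.finrank_sup_add_finrank_inf_eq M x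
  have h2 : Module.finrank C ↥(M ⊓ x) = 0 := by
    by_contra h0
    apply h
    have h3 : Module.finrank C ↥(M ⊓ x) ≤ Module.finrank C x :=
      Submodule.finrank_mono inf_le_right
    have h4 : M ⊓ x = x := Submodule.eq_of_le_of_finrank_eq inf_le_right (by omega)
    rw [← h4]
    exact inf_le_left
  omega

/-- A basis of a subspace as a family of vectors. -/
theorem exists_family {C : Type} [Field C] {n s : ℕ} {M : Submodule C (Fin n → C)}
    (hM : Module.finrank C M = s) : ∃ u : Fin s → Fin n → C, Submodule.span C (Set.range u) = M := by
  subst hM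
  refine ⟨fun i => (Module.finBasis C M i : Fin n → C), ?_⟩
  have := (Module.finBasis C M).span_eq
  have h2 := congrArg (Submodule.map M.subtype) this
  rw [Submodule.map_span, Submodule.map_top, Submodule.range_subtype, ← Set.range_comp] at h2
  exact h2

/-- The locus condition for the sum. -/
theorem value_sup {C K : Type} [Field C] [Field K] [Algebra K C] {k n c : ℕ}
    (h : Fin c → MvPolynomial (Fin k × Fin n) K) {s : ℕ} (hs : s < k) (hsat : Saturated C h)
    {y : Option (Fin k) → Submodule C (Fin n → C)} (hy : y ∈ (St C h s).pts)
    (v : Fin k → Fin n → C) (hv : ∀ i : Fin k, i.val ≤ s → v i ∈ y none ⊔ y (some ⟨s, hs⟩))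
    (hv' : ∀ i : Fin k, s < i.val → v i ∈ y (some i)) (j : Fin c) : value C (h j) v = 0 := by
  classical
  have h1 : Module.finrank C (y none) = s := hy.1 none
  have h2 : Module.finrank C (y (some ⟨s, hs⟩)) = 1 := by
    have := hy.1 (some ⟨s, hs⟩)
    simpa [St, locus, strk] using this
  obtain ⟨u, hu⟩ := exists_family h1
  obtain ⟨u', hu'⟩ := exists_family h2
  set w : Fin k → Fin n → C := fun i =>
    if hi : i.val < s then u ⟨i.val, hi⟩ else if i.val = s then u' 0 else v i with hw
  have hw1 : ∀ i (hi : i.val < s), w i = u ⟨i.val, hi⟩ := fun i hi => by simp [hw, hi]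
  have hw2 : w ⟨s, hs⟩ = u' 0 := by simp [hw]
  have hw3 : ∀ i : Fin k, s < i.val → w i = v i := fun i hi => by
    have h3 : ¬ i.val < s := by omega
    have h4 : i.val ≠ s := by omega
    simp [hw, h3, h4]
  have hspan : ∀ i, v i ∈ Submodule.span C (Set.range w) := by
    intro i
    rcases le_or_gt i.val s with hi | hi
    · have h5 : y none ⊔ y (some ⟨s, hs⟩) ≤ Submodule.span C (Set.range w) := by
        rw [← hu, ← hu']
        refine sup_le (Submodule.span_le.2 ?_) (Submodule.span_le.2 ?_)
        · rintro _ ⟨a, rfl⟩
          refine Submodule.subset_span ⟨⟨a.val, a.2.trans hs⟩, ?_⟩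
          rw [hw1 _ a.2]
        · rintro _ ⟨a, rfl⟩
          refine Submodule.subset_span ⟨⟨s, hs⟩, ?_⟩
          rw [hw2, Subsingleton.elim a 0]
      exact h5 (hv i hi)
    · rw [← hw3 i hi]
      exact Submodule.subset_span ⟨i, rfl⟩
  have hval : ∀ j, value C (h j) w = 0 := by
    refine hy.2 w fun i => ?_
    rcases lt_trichotomy i.val s with hi | hi | hi
    · have : stb k s i = none := by simp [stb, hi]
      rw [this, hw1 i hi, ← hu]
      exact Submodule.subset_span ⟨_, rfl⟩
    · have h6 : i = ⟨s, hs⟩ := Fin.ext hi
      have : stb k s i = some i := by simp [stb, hi]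
      rw [this, h6, hw2, ← hu']
      exact Submodule.subset_span ⟨_, rfl⟩
    · have : stb k s i = some i := by
        have : ¬ i.val < s := by omega
        simp [stb, this]
      rw [this, hw3 i hi]
      exact hv' i hi
  choose g hg using fun i => (Submodule.mem_span_range_iff_exists_fun C).1 (hspan i)
  have := hsat w hval g j
  simp only [hg] at this
  exact this

theorem main : S_B2 := by
  intro C K _ _ _ k n c h s hs hsat f hf
  obtain ⟨fa', hr, hm⟩ := f
  obtain rfl : fa' = fa k s := hf
  constructor
  · intro y hy hB
    have hB' : ¬ y (some ⟨s, hs⟩) ≤ y none := fun h' => hB ⟨hy, h'⟩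
    have h1 : Module.finrank C (y none) = s := hy.1 none
    have h2 : Module.finrank C (y (some ⟨s, hs⟩)) = 1 := by
      have := hy.1 (some ⟨s, hs⟩)
      simpa [St, locus, strk] using this
    refine ⟨fun o => o.elim (y (some ⟨s, hs⟩)) fun o => o.elim (y none) fun o =>
      o.elim (y none ⊔ y (some ⟨s, hs⟩)) fun i => if i.val = s then ⊥ else y (some i),
      ⟨⟨⟨?_, ?_⟩, h1, le_sup_left⟩, h2, le_sup_right⟩, ?_⟩
    · rintro (_ | i)
      · exact finrank_sup h1 h2 hB'
      · have h3 := hy.1 (some i)
        show Module.finrank C ↥(if i.val = s then ⊥ else y (some i)) = strk k (s + 1) (some i)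
        by_cases hi : i.val = s
        · have h4 : strk k (s + 1) (some i) = 0 := by simp [strk, hi]
          rw [if_pos hi, h4]
          exact finrank_bot C (Fin n → C)
        · rw [if_neg hi, h3]
          show (if i.val < s then 0 else 1) = if i.val < s + 1 then 0 else 1
          by_cases h5 : i.val < s
          · rw [if_pos h5, if_pos (by omega)]
          · rw [if_neg h5, if_neg (by omega)]
    · intro v hv j
      refine value_sup h hs hsat hy v (fun i hi => ?_) (fun i hi => ?_) j
      · have := hv i
        have h6 : stb k (s + 1) i = none := by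
          have : i.val < s + 1 := by omega
          simp [stb, this]
        rw [h6] at this
        exact this
      · have := hv i
        have h6 : stb k (s + 1) i = some i := by
          have : ¬ i.val < s + 1 := by omega
          simp [stb, this]
        rw [h6] at this
        have h7 : v i ∈ (if i.val = s then ⊥ else y (some i)) := this
        rwa [if_neg (by omega)] at h7
    · funext o
      rcases o with _ | i
      · rfl
      · show Option.elim (if i.val = s then none else some (some (some i))) _ _ = _
        by_cases hi : i.val = s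
        · rw [if_pos hi]
          have h6 : i = ⟨s, hs⟩ := Fin.ext hi
          rw [h6]
          rfl
        · rw [if_neg hi]
          show (if i.val = s then ⊥ else y (some i)) = y (some i)
          rw [if_neg hi]
  · intro x hx x' hx' hB he
    have hfa : fa k s (some ⟨s, hs⟩) = none := by simp [fa]
    have hB' : ¬ x none ≤ x (some none) := by
      intro h'
      refine hB ⟨hm x hx, ?_⟩
      show x (fa k s (some ⟨s, hs⟩)) ≤ x (some none)
      rw [hfa]
      exact h'
    have e1 : x none = x' none := by
      have : x (fa k s (some ⟨s, hs⟩)) = x' (fa k s (some ⟨s, hs⟩)) :=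
        congrFun he (some ⟨s, hs⟩)
      rw [hfa] at this
      exact this
    have e2 : x (some none) = x' (some none) := congrFun he none
    have e3 : ∀ i : Fin k, x (some (some (some i))) = x' (some (some (some i))) := by
      intro i
      by_cases hi : i.val = s
      · have h1 := hx.1.1.1 (some i)
        have h2 := hx'.1.1.1 (some i)
        have h4 : strk k (s + 1) (some i) = 0 := by simp [strk, hi]
        rw [h4, Submodule.finrank_eq_zero] at h1 h2
        exact h1.trans h2.symm
      · have h5 : fa k s (some i) = some (some (some i)) := by simp [fa, hi]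
        have : x (fa k s (some i)) = x' (fa k s (some i)) := congrFun he (some i)
        rw [h5] at this
        exact this
    have key : ∀ z ∈ (Qs (C := C) h s).pts, ¬ z none ≤ z (some none) →
        z (some (some none)) = z (some none) ⊔ z none := by
      intro z hz hn
      symm
      refine Submodule.eq_of_le_of_finrank_eq (sup_le hz.1.2.2 hz.2.2) ?_
      rw [finrank_sup hz.1.2.1 hz.2.1 hn]
      exact (hz.1.1.1 none).symm
    funext o
    rcases o with _ | _ | _ | i
    · exact e1
    · exact e2
    · have h1 := key x hx hB'
      have h2 := key x' hx' (by rw [← e1, ← e2]; exact hB')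
      exact h1.trans ((congrArg₂ (fun a b => a ⊔ b) e2 e1).trans h2.symm)
    · exact e3 i

end Pool.Agent.H88.VG.B2
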