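import Pool.Agent.H88.VG.Stm

/-!
# Varieties of subspaces, B4: forgetting the zero subspaces
-/

set_option autoImplicit false

open MvPolynomial Pool.Agent.Y129.TA Pool.Agent.Y129.TB Pool.Agent.H88.VL

universe u v

namespace Pool.Agent.H88.VG.B4

theorem main_a : S_B4a := by
  intro C K _ _ _ k n c h
  have key : ∀ z ∈ (St C h k).pts, (fun _ : Unit => z none) ∈ (grass C h).pts := by
    intro z hz
    refine ⟨fun _ => hz.1 none, fun w hw => hz.2 w fun i => ?_⟩
    have : stb k k i = none := by simp [stb, i.2]
    rw [this]
    exact hw i
  refine ⟨key, fun f hf => ⟨?_, ?_⟩⟩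
  · intro y hy _
    refine ⟨fun o => o.elim (y ()) fun _ => ⊥, ⟨?_, ?_⟩, ?_⟩
    · rintro (_ | i)
      · exact hy.1 ()
      · have h3 : strk k k (some i) = 0 := by simp [strk]
        rw [h3]
        exact finrank_bot C (Fin n → C)
    · intro w hw j
      refine hy.2 w (fun i => ?_) j
      have := hw i
      have h2 : stb k k i = none := by simp [stb, i.2]
      rw [h2] at this
      exact this
    · funext j
      show Option.elim (f.a j) (y ()) (fun _ => ⊥) = y j
      rw [hf]
      rfl
  · intro x hx x' hx' _ he
    funext o
    rcases o with _ | i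
    · have := congrFun he ()
      simp only [Mor.app] at this
      rw [hf] at this
      exact this
    · have h1 := hx.1 (some i)
      have h2 := hx'.1 (some i)
      have h3 : strk k k (some i) = 0 := by simp [strk]
      rw [h3] at h1 h2
      rw [Submodule.finrank_eq_zero] at h1 h2
      rw [h1, h2]

theorem main_b : S_B4b := by
  intro C K _ _ _ k n c h
  have key : ∀ z ∈ (St C h 0).pts, (fun i : Fin k => z (some i)) ∈ (zeros C h).pts := by
    intro z hz
    refine ⟨fun i => ?_, fun w hw => hz.2 w fun i => ?_⟩
    · have := hz.1 (some i)
      simpa [strk] using this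
    · have : stb k 0 i = some i := by simp [stb]
      rw [this]
      exact hw i
  refine ⟨key, fun f hf => ⟨?_, ?_⟩⟩
  · intro y hy _
    refine ⟨fun o => o.elim ⊥ fun i => y i, ⟨?_, ?_⟩, ?_⟩
    · rintro (_ | i)
      · have h3 : strk k 0 none = 0 := by simp [strk]
        rw [h3]
        exact finrank_bot C (Fin n → C)
      · have h3 : strk k 0 (some i) = 1 := by simp [strk]
        rw [h3]
        exact hy.1 i
    · intro w hw j
      refine hy.2 w (fun i => ?_) j
      have := hw i
      have h2 : stb k 0 i = some i := by simp [stb]
      rw [h2] at this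
      exact this
    · funext j
      show Option.elim (f.a j) ⊥ (fun i => y i) = y j
      rw [hf]
      rfl
  · intro x hx x' hx' _ he
    funext o
    rcases o with _ | i
    · have h1 := hx.1 none
      have h2 := hx'.1 none
      have h3 : strk k 0 none = 0 := by simp [strk]
      rw [h3] at h1 h2
      rw [Submodule.finrank_eq_zero] at h1 h2
      rw [h1, h2]
    · have := congrFun he i
      simp only [Mor.app] at this
      rw [hf] at this
      exact this

end Pool.Agent.H88.VG.B4
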