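import Pool.Agent.H88.VL.Alg
import Pool.Agent.H88.L.Y129.TB.Poly

/-!
# The cohomology of closed subsets of products of Grassmannians: definitions
-/

set_option autoImplicit false

open MvPolynomial Pool.Agent.Y129.TA Pool.Agent.Y129.TB Pool.Agent.H88.VL

universe u v

namespace Pool.Agent.H88.VG

/-! ### Closed subsets of products of Grassmannians -/

/-- A set of points of a product of Grassmannians: `J` is the set of the factors, the factor `j` is the
Grassmannian of the subspaces of dimension `r j` of `C^n`, and `pts` consists of tuples of subspaces. -/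
structure GSet (C : Type) [Field C] (n : ℕ) where
  /-- the factors -/
  J : Type
  /-- the dimensions -/
  r : J → ℕ
  /-- the points -/
  pts : Set (J → Submodule C (Fin n → C))

variable {C : Type} [Field C] {n : ℕ}

/-- The subspaces spanned by the families `v j`. -/
def spans {J : Type} {r : J → ℕ} (v : ∀ j, Fin (r j) → Fin n → C) : J → Submodule C (Fin n → C) :=
  fun j => Submodule.span C (Set.range (v j))

/-- The set is closed and defined over `K`: it is given by polynomial equations over `K` in the
coordinates of the vectors of the bases of the subspaces. -/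
structure GSet.IsClosed (K : Type) [Field K] [Algebra K C] (X : GSet C n) : Prop where
  finJ : Finite X.J
  rank : ∀ x ∈ X.pts, ∀ j, Module.finrank C (x j) = X.r j
  eqs : ∃ S : Set (MvPolynomial ((j : X.J) × Fin (X.r j) × Fin n) K),
    ∀ v : ∀ j, Fin (X.r j) → Fin n → C, (∀ j, LinearIndependent C (v j)) →
      (spans v ∈ X.pts ↔ ∀ P ∈ S, aeval (fun t => v t.1 t.2.1 t.2.2) P = 0)

/-- The morphisms which forget, repeat and rename factors: the factor `j` of the image is the factor
`a j`. -/
structure Mor (X Y : GSet C n) where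
  /-- the factors -/
  a : Y.J → X.J
  rank : ∀ j, X.r (a j) = Y.r j
  maps : ∀ x ∈ X.pts, (fun j => x (a j)) ∈ Y.pts

/-- The image of a point. -/
def Mor.app {X Y : GSet C n} (f : Mor X Y) (x : X.J → Submodule C (Fin n → C)) :
    Y.J → Submodule C (Fin n → C) := fun j => x (f.a j)

/-- The identity. -/
def Mor.id (X : GSet C n) : Mor X X := ⟨fun j => j, fun _ => rfl, fun _ h => h⟩

/-- The composition. -/
def Mor.comp {X Y Z : GSet C n} (g : Mor Y Z) (f : Mor X Y) : Mor X Z where
  a j := f.a (g.a j)
  rank j := (f.rank (g.a j)).trans (g.rank j)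
  maps x hx := g.maps _ (f.maps x hx)

/-- The subset `B`. -/
def GSet.sub (Y : GSet C n) (B : Set (Y.J → Submodule C (Fin n → C))) : GSet C n := ⟨Y.J, Y.r, B⟩

/-- The inclusion of the subset `B` of `Y`. -/
def incl (Y : GSet C n) (B : Set (Y.J → Submodule C (Fin n → C))) (h : B ⊆ Y.pts) :
    Mor (Y.sub B) Y := ⟨fun j => j, fun _ => rfl, fun _ hx => h hx⟩

/-- The inverse image of `B`. -/
def Mor.pre {X Y : GSet C n} (f : Mor X Y) (B : Set (Y.J → Submodule C (Fin n → C))) :
    Set (X.J → Submodule C (Fin n → C)) := {x | x ∈ X.pts ∧ f.app x ∈ B}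

/-- The restriction of the morphism to the inverse image of `B`. -/
def Mor.restr {X Y : GSet C n} (f : Mor X Y) (B : Set (Y.J → Submodule C (Fin n → C))) :
    Mor (X.sub (f.pre B)) (Y.sub B) := ⟨f.a, f.rank, fun _ hx => hx.2⟩

/-- The morphism is bijective over the complement of `B`. -/
structure Mor.BijOff {X Y : GSet C n} (f : Mor X Y) (B : Set (Y.J → Submodule C (Fin n → C))) :
    Prop where
  surj : ∀ y ∈ Y.pts, y ∉ B → ∃ x ∈ X.pts, f.app x = y
  inj : ∀ x ∈ X.pts, ∀ x' ∈ X.pts, f.app x ∉ B → f.app x = f.app x' → x = x'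

/-- The points of `X` together with a subspace of dimension `s` of the subspace in the factor `j`. -/
def GSet.subs (X : GSet C n) (j : X.J) (s : ℕ) : GSet C n :=
  ⟨Option X.J, fun o => o.elim s X.r, {z | (fun i => z (some i)) ∈ X.pts ∧
    Module.finrank C (z none) = s ∧ z none ≤ z (some j)}⟩

/-- The projection to `X`. -/
def down (X : GSet C n) (j : X.J) (s : ℕ) : Mor (X.subs j s) X :=
  ⟨some, fun _ => rfl, fun _ hz => hz.1⟩

/-! ### Zeros of multihomogeneous polynomials -/

/-- The value at the vectors `v i` of a polynomial in the coordinates of `k` vectors. -/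
noncomputable def value (C : Type) [Field C] {K : Type} [Field K] [Algebra K C] {k n : ℕ}
    (P : MvPolynomial (Fin k × Fin n) K) (v : Fin k → Fin n → C) : C :=
  aeval (fun t : Fin k × Fin n => v t.1 t.2) P

/-- The polynomial is homogeneous of degree `a i` in the coordinates of the vector `i`. -/
def MultiHom {K : Type} [Field K] {k n : ℕ} (P : MvPolynomial (Fin k × Fin n) K) (a : Fin k → ℕ) :
    Prop := ∀ α ∈ P.support, ∀ i, ∑ j, α (i, j) = a i

/-- The tuples of subspaces of dimensions `r j` such that the polynomials `h j` are zero for all vectors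
`v i` in the subspaces in the factors `b i`. -/
def locus (C : Type) [Field C] {K : Type} [Field K] [Algebra K C] {k n c : ℕ}
    (h : Fin c → MvPolynomial (Fin k × Fin n) K) {J : Type} (r : J → ℕ) (b : Fin k → J) : GSet C n :=
  ⟨J, r, {x | (∀ j, Module.finrank C (x j) = r j) ∧
    ∀ v : Fin k → Fin n → C, (∀ i, v i ∈ x (b i)) → ∀ j, value C (h j) v = 0}⟩

/-- The set of the common zeros of the `h j` in the product of `k` projective spaces. -/
def zeros (C : Type) [Field C] {K : Type} [Field K] [Algebra K C] {k n c : ℕ}
    (h : Fin c → MvPolynomial (Fin k × Fin n) K) : GSet C n :=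
  locus C h (fun _ : Fin k => 1) fun i => i

/-- The set of the subspaces of dimension `k` such that the `h j` are zero for all vectors of the
subspace. -/
def grass (C : Type) [Field C] {K : Type} [Field K] [Algebra K C] {k n c : ℕ}
    (h : Fin c → MvPolynomial (Fin k × Fin n) K) : GSet C n :=
  locus C h (fun _ : Unit => k) fun _ => ()

/-- With a family of vectors, the `h j` are zero also for all families of linear combinations. -/
def Saturated (C : Type) [Field C] {K : Type} [Field K] [Algebra K C] {k n c : ℕ}
    (h : Fin c → MvPolynomial (Fin k × Fin n) K) : Prop :=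
  ∀ v : Fin k → Fin n → C, (∀ j, value C (h j) v = 0) → ∀ g : Fin k → Fin k → C, ∀ j,
    value C (h j) (fun i => ∑ l, g i l • v l) = 0

/-- The intersection number of `P`, a polynomial in the hyperplane classes, with the divisors of
multidegrees `a j` in the product of `k` projective spaces of dimension `n - 1`. -/
noncomputable def inter {k c : ℕ} (n : ℕ) (a : Fin c → Fin k → ℕ) (P : MvPolynomial (Fin k) ℤ) : ℤ :=
  coeff (Finsupp.equivFunOnFinite.symm fun _ => n - 1)
    (P * ∏ j, ∑ i, MvPolynomial.C (a j i : ℤ) * X i)

/-! ### The cohomology -/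

/-- Cohomology algebras of the sets of points of products of Grassmannians, with the pull-back maps and
the Chern classes of the duals of the tautological bundles of the factors. -/
structure Theory (C : Type) [Field C] (n : ℕ) (Ω : Type v) [Field Ω] where
  /-- the cohomology -/
  coh : GSet C n → Alg.{u, v} Ω
  /-- the pull-back -/
  map : ∀ {X Y : GSet C n}, Mor X Y → ((coh Y).H →ₐ[Ω] (coh X).H)
  /-- the Chern classes -/
  chern : ∀ X : GSet C n, X.J → ℕ → (coh X).H

variable {Ω : Type v} [Field Ω] (K : Type) [Field K] [Algebra K C] (q : ℕ)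

/-- The pull-back of a class. -/
def Theory.pull (T : Theory.{u, v} C n Ω) {X Y : GSet C n} (f : Mor X Y) (y : (T.coh Y).H) :
    (T.coh X).H := T.map f y

variable (T : Theory.{u, v} C n Ω)

/-- The cohomology is a functor from the closed subsets, defined over `K`, of products of Grassmannians
to the local algebras; a morphism acts only through its values on points. -/
structure Theory.Functorial : Prop where
  isLocal : ∀ {X : GSet C n}, X.IsClosed K → (T.coh X).Local q
  map_mem : ∀ {X Y : GSet C n} (f : Mor X Y), X.IsClosed K → Y.IsClosed K → ∀ i y,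
    (T.coh Y).In i y → (T.coh X).In i (T.pull f y)
  map_F : ∀ {X Y : GSet C n} (f : Mor X Y), X.IsClosed K → Y.IsClosed K → ∀ y,
    T.pull f ((T.coh Y).frob y) = (T.coh X).frob (T.pull f y)
  map_N : ∀ {X Y : GSet C n} (f : Mor X Y), X.IsClosed K → Y.IsClosed K → ∀ y,
    T.pull f ((T.coh Y).mono y) = (T.coh X).mono (T.pull f y)
  map_id : ∀ {X : GSet C n}, X.IsClosed K → ∀ x, T.pull (Mor.id X) x = x
  map_comp : ∀ {X Y Z : GSet C n} (g : Mor Y Z) (f : Mor X Y), X.IsClosed K → Y.IsClosed K →
    Z.IsClosed K → ∀ z, T.pull (g.comp f) z = T.pull f (T.pull g z)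
  map_congr : ∀ {X Y : GSet C n} (f g : Mor X Y), X.IsClosed K → Y.IsClosed K →
    (∀ x ∈ X.pts, f.app x = g.app x) → ∀ y, T.pull f y = T.pull g y

/-- The Chern classes `c_i` are of degree `2 i`, `F` multiplies them by `q ^ i`, `N` is zero on them, they
are compatible with the pull-back, `c_0 = 1`, and `c_i = 0` if `i` is larger than the rank. Whitney
formula: if the subspace in the factor `l` is contained in the one in the factor `j`, the Chern
polynomial of the factor `j` is the product of the one of the factor `l` and of a polynomial of degree at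
most `r j - r l`. -/
structure Theory.Chern : Prop where
  chern_mem : ∀ {X : GSet C n}, X.IsClosed K → ∀ j i, (T.coh X).In (2 * i) (T.chern X j i)
  F_chern : ∀ {X : GSet C n}, X.IsClosed K → ∀ j i,
    (T.coh X).frob (T.chern X j i) = (T.coh X).smul (q ^ i) (T.chern X j i)
  N_chern : ∀ {X : GSet C n}, X.IsClosed K → ∀ j i,
    (T.coh X).mono (T.chern X j i) = (T.coh X).zero
  map_chern : ∀ {X Y : GSet C n} (f : Mor X Y), X.IsClosed K → Y.IsClosed K → ∀ j i,
    T.pull f (T.chern Y j i) = T.chern X (f.a j) i
  chern_zero : ∀ {X : GSet C n}, X.IsClosed K → ∀ j, T.chern X j 0 = 1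
  chern_above : ∀ {X : GSet C n}, X.IsClosed K → ∀ j i, X.r j < i →
    T.chern X j i = (T.coh X).zero
  whitney : ∀ {X : GSet C n}, X.IsClosed K → ∀ l j, (∀ x ∈ X.pts, x l ≤ x j) →
    ∃ w : ℕ → (T.coh X).H, (∀ i, (T.coh X).In (2 * i) (w i)) ∧
      (∀ i, X.r j < X.r l + i → w i = (T.coh X).zero) ∧
      ∀ i, T.chern X j i = ∑ a ∈ Finset.range (i + 1), (T.coh X).mul (T.chern X l a) (w (i - a))

/-- Proper descent: if `f : X → Y` is bijective over the complement of the closed subset `B`, then classes
of `X` and `B` with the same restriction to the inverse image of `B` come from a class of `Y`; this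
class is unique if the restriction from `X` to the inverse image of `B` is surjective. The cohomology
of the empty set is zero. -/
structure Theory.Descent : Prop where
  empty : ∀ {X : GSet C n}, X.IsClosed K → X.pts = ∅ → ∀ x, x = (T.coh X).zero
  descent : ∀ {X Y : GSet C n} (f : Mor X Y), X.IsClosed K → Y.IsClosed K →
    ∀ (B : Set (Y.J → Submodule C (Fin n → C))) (hB : B ⊆ Y.pts), (Y.sub B).IsClosed K →
    f.BijOff B → ∀ i x b, (T.coh X).In i x → (T.coh (Y.sub B)).In i b →
      T.pull (incl X (f.pre B) fun _ h => h.1) x = T.pull (f.restr B) b →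
      ∃ y, (T.coh Y).In i y ∧ T.pull f y = x ∧ T.pull (incl Y B hB) y = b
  descent_unique : ∀ {X Y : GSet C n} (f : Mor X Y), X.IsClosed K → Y.IsClosed K →
    ∀ (B : Set (Y.J → Submodule C (Fin n → C))) (hB : B ⊆ Y.pts), (Y.sub B).IsClosed K →
    f.BijOff B → Function.Surjective (T.pull (incl X (f.pre B) fun _ h => h.1)) →
    ∀ y, T.pull f y = (T.coh X).zero → T.pull (incl Y B hB) y = (T.coh (Y.sub B)).zero →
      y = (T.coh Y).zero

/-- The cohomology of the projective bundle of the lines in the factor `j` is generated over the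
cohomology of `X` by the powers of the hyperplane class. -/
def Theory.Bundles : Prop :=
  ∀ {X : GSet C n} (j : X.J), X.IsClosed K → (X.subs j 1).IsClosed K → ∀ x, ∃ a : ℕ → (T.coh X).H,
    x = ∑ i ∈ Finset.range (X.r j), T.pull (down X j 1) (a i) * T.chern (X.subs j 1) none 1 ^ i

end Pool.Agent.H88.VG
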