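import Pool.Agent.H88.VG.Stm

/-!
# The Chern polynomial step: an identity in a commutative ring
-/

set_option autoImplicit false

universe u v

namespace Pool.Agent.H88.VG.C1

theorem rp_succ {R : Type u} [CommRing R] (s : ℕ) (c c' : ℕ → R) (l t : R) (hc0 : c 0 = 1)
    (hc'0 : c' 0 = 1) (hc : ∀ a, c (a + 1) = c' (a + 1) + c' a * l) (hs : c' (s + 1) = 0) :
    Rp (s + 1) c t = (t - l) * Rp s c' t := by
  have h1 : Rp (s + 1) c t = t ^ (s + 1)
      + ∑ a ∈ Finset.range (s + 1), (-1) ^ (a + 1) * (c' (a + 1) + c' a * l) * t ^ (s - a) := by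
    unfold Rp
    rw [Finset.sum_range_succ', add_comm]
    congr 1
    · simp [hc0]
    · refine Finset.sum_congr rfl fun a _ => ?_
      rw [hc a, Nat.add_sub_add_right]
  have h2 : t * Rp s c' t = t ^ (s + 1)
      + ∑ a ∈ Finset.range (s + 1), (-1) ^ (a + 1) * c' (a + 1) * t ^ (s - a) := by
    unfold Rp
    rw [Finset.sum_range_succ', mul_add, add_comm, Finset.sum_range_succ, hs, Finset.mul_sum]
    congr 1
    · simp [hc'0, pow_succ, mul_comm]
    · rw [mul_zero, zero_mul, add_zero]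
      refine Finset.sum_congr rfl fun a ha => ?_
      rw [Finset.mem_range] at ha
      have h3 : s - a = s - (a + 1) + 1 := by omega
      rw [h3]
      ring
  have h3 : l * Rp s c' t = - ∑ a ∈ Finset.range (s + 1), (-1) ^ (a + 1) * (c' a * l) * t ^ (s - a) := by
    unfold Rp
    rw [Finset.mul_sum, ← Finset.sum_neg_distrib]
    refine Finset.sum_congr rfl fun a _ => ?_
    ring
  rw [sub_mul, h2, h3, h1]
  rw [sub_neg_eq_add, add_assoc, ← Finset.sum_add_distrib]
  congr 1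
  refine Finset.sum_congr rfl fun a _ => ?_
  ring

theorem filter_eq {k s : ℕ} (hs : s < k) :
    (Finset.univ.filter fun i : Fin k => s ≤ i.val)
      = insert (⟨s, hs⟩ : Fin k) (Finset.univ.filter fun i : Fin k => s + 1 ≤ i.val) := by
  ext i
  simp only [Finset.mem_filter, Finset.mem_univ, true_and, Finset.mem_insert, Fin.ext_iff]
  omega

theorem notMem {k s : ℕ} (hs : s < k) :
    (⟨s, hs⟩ : Fin k) ∉ (Finset.univ.filter fun i : Fin k => s + 1 ≤ i.val) := by
  simp

theorem Ioi_eq {k s : ℕ} (hs : s < k) :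
    Finset.Ioi (⟨s, hs⟩ : Fin k) = (Finset.univ.filter fun i : Fin k => s + 1 ≤ i.val) := by
  ext i
  simp only [Finset.mem_filter, Finset.mem_univ, true_and, Finset.mem_Ioi, Fin.lt_def]
  omega

/-- elements congruent modulo the annihilator of `E` -/
theorem congr_ann {R : Type u} [CommRing R] (E l t : R) (h : (t - l) * E = 0) {ι : Type}
    (S : Finset ι) (x : ι → R) (A B : R) (g : ι → R) (d : ℕ) :
    (A + l) ^ d * (∏ i ∈ S, ((x i - l) * g i) ^ 2) * B * E ^ 2
      = (A + t) ^ d * (∏ i ∈ S, ((t - x i) * g i) ^ 2) * B * E ^ 2 := by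
  set I : Ideal R := LinearMap.ker (LinearMap.mulLeft R E) with hI
  have hmem : t - l ∈ I := by
    rw [hI, LinearMap.mem_ker, LinearMap.mulLeft_apply, mul_comm]
    exact h
  have htl : Ideal.Quotient.mk I t = Ideal.Quotient.mk I l := Ideal.Quotient.eq.2 hmem
  have hq : Ideal.Quotient.mk I ((A + l) ^ d * (∏ i ∈ S, ((x i - l) * g i) ^ 2) * B)
      = Ideal.Quotient.mk I ((A + t) ^ d * (∏ i ∈ S, ((t - x i) * g i) ^ 2) * B) := by
    simp only [map_mul, map_pow, map_add, map_prod, map_sub, htl]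
    congr 2
    refine Finset.prod_congr rfl fun i _ => ?_
    ring
  have h2 := Ideal.Quotient.eq.1 hq
  rw [hI, LinearMap.mem_ker, LinearMap.mulLeft_apply] at h2
  linear_combination E * h2

theorem main : S_C1.{u} := by
  intro R _ k d s hs c c' l x hc0 hc'0 hc hs' hR
  have hrp : ∀ t, Rp (s + 1) c t = (t - l) * Rp s c' t := fun t =>
    rp_succ s c c' l t hc0 hc'0 hc hs'
  set E := Rp s c' (x ⟨s, hs⟩) with hE
  have hann : (x ⟨s, hs⟩ - l) * E = 0 := by
    rw [hE, ← hrp]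
    exact hR
  set S : Finset (Fin k) := Finset.univ.filter fun i : Fin k => s + 1 ≤ i.val with hS
  have hc1 : c 1 = c' 1 + l := by
    rw [hc 0, hc'0, one_mul]
  have hL : Th k d (s + 1) c x * E ^ 2
      = ((c' 1 + ∑ i ∈ S, x i) + l) ^ d * (∏ i ∈ S, ((x i - l) * Rp s c' (x i)) ^ 2) *
        (∏ i ∈ S, ∏ j ∈ Finset.Ioi i, (x i - x j) ^ 2) * E ^ 2 := by
    unfold Th
    rw [hc1]
    simp only [hrp]
    rw [← hS]
    ring
  rw [hL, congr_ann E l (x ⟨s, hs⟩) hann]
  unfold Th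
  rw [filter_eq hs, Finset.sum_insert (notMem hs), Finset.prod_insert (notMem hs),
    Finset.prod_insert (notMem hs), Ioi_eq hs, ← hS, ← hE]
  have h1 : ∏ i ∈ S, ((x ⟨s, hs⟩ - x i) * Rp s c' (x i)) ^ 2
      = (∏ i ∈ S, (x ⟨s, hs⟩ - x i) ^ 2) * ∏ i ∈ S, Rp s c' (x i) ^ 2 := by
    rw [← Finset.prod_mul_distrib]
    refine Finset.prod_congr rfl fun i _ => ?_
    ring
  rw [h1]
  ring

end Pool.Agent.H88.VG.C1
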