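import Pool.Agent.H88.VG.Stm

/-!
# Telescoping sums in a commutative ring
-/

set_option autoImplicit false

universe u v

namespace Pool.Agent.H88.VG.C2

theorem main_a : S_C2.{u} := by
  intro R _ r c e w hc he0 he2 hw
  have hc0 : c 0 = w 0 := by
    rw [hc 0]
    simp [he0]
  have hcs : ∀ i, c (i + 1) = w (i + 1) + e 1 * w i := by
    intro i
    rw [hc (i + 1), Finset.sum_range_succ', Finset.sum_range_succ']
    have hz : ∑ k ∈ Finset.range i, e (k + 1 + 1) * w (i + 1 - (k + 1 + 1)) = 0 := by
      apply Finset.sum_eq_zero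
      intro k _
      rw [he2 (k + 1 + 1) (by omega), zero_mul]
    rw [hz, he0]
    simp [add_comm]
  have key : ∀ m, m ≤ r → ∑ a ∈ Finset.range (m + 1), (-1) ^ a * c a * e 1 ^ (r - a)
      = (-1) ^ m * w m * e 1 ^ (r - m) := by
    intro m
    induction m with
    | zero =>
      intro _
      simp [hc0]
    | succ m ih =>
      intro hm
      rw [Finset.sum_range_succ, ih (by omega), hcs m]
      have h1 : r - m = (r - (m + 1)) + 1 := by omega
      rw [h1]
      ring
  unfold Rp
  rw [key r le_rfl, hw r le_rfl]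
  ring

theorem main_b : S_C3.{u} := by
  intro R _ c c' w hc hc0 hc'0 hw a
  have hw0 : w 0 = 1 := by
    have := hc 0
    rw [hc0] at this
    simpa [hc'0] using this.symm
  rw [hc (a + 1), Finset.sum_range_succ, Finset.sum_range_succ]
  have hz : ∑ k ∈ Finset.range a, c' k * w (a + 1 - k) = 0 := by
    apply Finset.sum_eq_zero
    intro k hk
    rw [Finset.mem_range] at hk
    rw [hw (a + 1 - k) (by omega), mul_zero]
  rw [hz]
  have h1 : a + 1 - a = 1 := by omega
  rw [h1, Nat.sub_self, hw0]
  ring

end Pool.Agent.H88.VG.C2
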