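import Pool.Agent.H88.VG.Stm

/-!
# Varieties of subspaces: central classes
-/

set_option autoImplicit false

open MvPolynomial Pool.Agent.Y129.TA Pool.Agent.Y129.TB Pool.Agent.H88.VL

universe u v

namespace Pool.Agent.H88.VG

section nat

variable {R S : Type*} [CommRing R] [CommRing S] (φ : R →+* S)

lemma map_Rp (s : ℕ) (c : ℕ → R) (t : R) : φ (Rp s c t) = Rp s (fun a => φ (c a)) (φ t) := by
  simp [Rp, map_sum]

lemma map_Th (k d s : ℕ) (c : ℕ → R) (x : Fin k → R) :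
    φ (Th k d s c x) = Th k d s (fun a => φ (c a)) fun i => φ (x i) := by
  simp [Th, map_Rp, map_sum, map_prod]

lemma Th_congr {k d s : ℕ} {c : ℕ → R} {x y : Fin k → R} (h : ∀ i : Fin k, s ≤ i.val → x i = y i) :
    Th k d s c x = Th k d s c y := by
  unfold Th
  congr 1
  · congr 1
    · congr 2
      exact Finset.sum_congr rfl fun i hi => h i (Finset.mem_filter.1 hi).2
    · exact Finset.prod_congr rfl fun i hi => by rw [h i (Finset.mem_filter.1 hi).2]
  · refine Finset.prod_congr rfl fun i hi => Finset.prod_congr rfl fun j hj => ?_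
    have h1 := (Finset.mem_filter.1 hi).2
    have h2 := Finset.mem_Ioi.1 hj
    rw [h i h1, h j (h1.trans (le_of_lt h2))]

lemma Th_zero {k d s : ℕ} (hs : s < k) {c : ℕ → R} {x : Fin k → R} (h : Rp s c (x ⟨s, hs⟩) = 0) :
    Th k d s c x = 0 := by
  unfold Th
  rw [Finset.prod_eq_zero (i := (⟨s, hs⟩ : Fin k)) (by simp) (by rw [h]; ring)]
  ring

end nat

section cen

variable {Ω : Type*} [Field Ω] {H₁ H₂ : Type*} [Ring H₁] [Algebra Ω H₁] [Ring H₂] [Algebra Ω H₂]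

/-- homomorphisms and polynomials in central elements -/
lemma map_aeval (ψ : H₁ →ₐ[Ω] H₂) {τ : Type*} (y : τ → Subalgebra.center Ω H₁)
    (y' : τ → Subalgebra.center Ω H₂) (h : ∀ i, ψ (y i) = y' i) (P : MvPolynomial τ ℤ) :
    ψ ((aeval y P : Subalgebra.center Ω H₁) : H₁) = ((aeval y' P : Subalgebra.center Ω H₂) : H₂) := by
  have e₁ : ∀ a : ℤ, ((a : Subalgebra.center Ω H₁) : H₁) = a :=
    fun a => map_intCast (Subalgebra.center Ω H₁).val a
  have e₂ : ∀ a : ℤ, ((a : Subalgebra.center Ω H₂) : H₂) = a :=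
    fun a => map_intCast (Subalgebra.center Ω H₂).val a
  induction P using MvPolynomial.induction_on with
  | C a =>
    have h1 : (aeval y) (MvPolynomial.C a : MvPolynomial τ ℤ) = (a : Subalgebra.center Ω H₁) := by
      rw [aeval_C, eq_intCast]
      rfl
    have h2 : (aeval y') (MvPolynomial.C a : MvPolynomial τ ℤ) = (a : Subalgebra.center Ω H₂) := by
      rw [aeval_C, eq_intCast]
      rfl
    rw [h1, h2]
    exact (congrArg ψ (e₁ a)).trans ((map_intCast ψ a).trans (e₂ a).symm)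
  | add p q hp hq => simp [hp, hq]
  | mul_X p i hp => simp [hp, h]

lemma map_cRp (ψ : H₁ →ₐ[Ω] H₂) (s : ℕ) {c : ℕ → Subalgebra.center Ω H₁}
    {c' : ℕ → Subalgebra.center Ω H₂} {t : Subalgebra.center Ω H₁} {t' : Subalgebra.center Ω H₂}
    (hc : ∀ a, ψ (c a) = c' a) (ht : ψ t = t') :
    ψ ((Rp s c t : Subalgebra.center Ω H₁) : H₁) = ((Rp s c' t' : Subalgebra.center Ω H₂) : H₂) := by
  have key := map_aeval ψ (fun o : ℕ ⊕ Unit => Sum.elim c (fun _ => t) o)
    (fun o : ℕ ⊕ Unit => Sum.elim c' (fun _ => t') o)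
    (by rintro (a | a); exacts [hc a, ht]) (Rp s (fun a => X (Sum.inl a)) (X (Sum.inr ())))
  have e1 := map_Rp (aeval (R := ℤ) (fun o : ℕ ⊕ Unit => Sum.elim c (fun _ => t) o)).toRingHom s
    (fun a => X (Sum.inl a)) (X (Sum.inr ()))
  have e2 := map_Rp (aeval (R := ℤ) (fun o : ℕ ⊕ Unit => Sum.elim c' (fun _ => t') o)).toRingHom s
    (fun a => X (Sum.inl a)) (X (Sum.inr ()))
  simp only [AlgHom.toRingHom_eq_coe, RingHom.coe_coe, aeval_X, Sum.elim_inl, Sum.elim_inr] at e1 e2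
  rw [e1, e2] at key
  exact key

lemma map_cTh (ψ : H₁ →ₐ[Ω] H₂) (k d s : ℕ) {c : ℕ → Subalgebra.center Ω H₁}
    {c' : ℕ → Subalgebra.center Ω H₂} {x : Fin k → Subalgebra.center Ω H₁}
    {x' : Fin k → Subalgebra.center Ω H₂} (hc : ∀ a, ψ (c a) = c' a) (hx : ∀ i, ψ (x i) = x' i) :
    ψ ((Th k d s c x : Subalgebra.center Ω H₁) : H₁) =
      ((Th k d s c' x' : Subalgebra.center Ω H₂) : H₂) := by
  have key := map_aeval ψ (fun o : ℕ ⊕ Fin k => Sum.elim c x o) (fun o => Sum.elim c' x' o)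
    (by rintro (a | i); exacts [hc a, hx i]) (Th k d s (fun a => X (Sum.inl a)) fun i => X (Sum.inr i))
  have e1 := map_Th (aeval (R := ℤ) (fun o : ℕ ⊕ Fin k => Sum.elim c x o)).toRingHom k d s
    (fun a => X (Sum.inl a)) (fun i => X (Sum.inr i))
  have e2 := map_Th (aeval (R := ℤ) (fun o : ℕ ⊕ Fin k => Sum.elim c' x' o)).toRingHom k d s
    (fun a => X (Sum.inl a)) (fun i => X (Sum.inr i))
  simp only [AlgHom.toRingHom_eq_coe, RingHom.coe_coe, aeval_X, Sum.elim_inl, Sum.elim_inr] at e1 e2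
  rw [e1, e2] at key
  exact key

end cen

section chern

variable {C : Type} [Field C] {n : ℕ} {Ω : Type v} [Field Ω] {T : Theory.{u, v} C n Ω} {K : Type}
  [Field K] [Algebra K C] {q : ℕ} (hT : T.Good K q) (g3 : S_G3.{u, v})

include hT g3

/-- a homogeneous element of even degree, as an element of the center -/
lemma cen_mem {X : GSet C n} (hX : X.IsClosed K) {i : ℕ} {x : (T.coh X).H}
    (hx : x ∈ (T.coh X).gr (2 * i)) : x ∈ Subalgebra.center Ω (T.coh X).H :=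
  Subalgebra.mem_center_iff.2 fun y => (g3 Ω q (T.coh X) (hT.isLocal hX) i x hx y).symm

/-- the Chern classes, as elements of the center -/
def cz {X : GSet C n} (hX : X.IsClosed K) (j : X.J) (i : ℕ) : Subalgebra.center Ω (T.coh X).H :=
  ⟨T.chern X j i, cen_mem hT g3 hX (hT.chern_mem hX j i)⟩

lemma map_cz {X Y : GSet C n} (f : Mor X Y) (hX : X.IsClosed K) (hY : Y.IsClosed K) (j : Y.J)
    (i : ℕ) : T.map f (cz hT g3 hY j i) = cz hT g3 hX (f.a j) i := hT.map_chern f hX hY j i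

lemma cz_zero {X : GSet C n} (hX : X.IsClosed K) (j : X.J) : cz hT g3 hX j 0 = 1 :=
  Subtype.ext (hT.chern_zero hX j)

lemma cz_above {X : GSet C n} (hX : X.IsClosed K) {j : X.J} {i : ℕ} (h : X.r j < i) :
    cz hT g3 hX j i = 0 := Subtype.ext (hT.chern_above hX j i h)

/-- Whitney formula in the center -/
lemma cz_whitney {X : GSet C n} (hX : X.IsClosed K) {l j : X.J} (h : ∀ x ∈ X.pts, x l ≤ x j) :
    ∃ w : ℕ → Subalgebra.center Ω (T.coh X).H, (∀ i, X.r j < X.r l + i → w i = 0) ∧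
      ∀ i, cz hT g3 hX j i = ∑ a ∈ Finset.range (i + 1), cz hT g3 hX l a * w (i - a) := by
  obtain ⟨w, h1, h2, h3⟩ := hT.whitney hX l j h
  refine ⟨fun i => ⟨w i, cen_mem hT g3 hX (h1 i)⟩, fun i hi => Subtype.ext (h2 i hi), fun i => ?_⟩
  apply Subtype.ext
  rw [AddSubmonoidClass.coe_finsetSum]
  exact h3 i

lemma incidence (c2 : S_C2.{u}) {X : GSet C n} (hX : X.IsClosed K) {l j : X.J} (hl : X.r l = 1)
    (h : ∀ x ∈ X.pts, x l ≤ x j) : Rp (X.r j) (cz hT g3 hX j) (cz hT g3 hX l 1) = 0 := by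
  obtain ⟨w, h1, h2⟩ := cz_whitney hT g3 hX h
  exact c2 _ (X.r j) _ (cz hT g3 hX l) w h2 (cz_zero hT g3 hX l)
    (fun a ha => cz_above hT g3 hX (by omega)) fun i hi => h1 i (by omega)

lemma corank (c3 : S_C3.{u}) {X : GSet C n} (hX : X.IsClosed K) {l j : X.J} (hl : X.r j = X.r l + 1)
    (h : ∀ x ∈ X.pts, x l ≤ x j) : ∃ w : Subalgebra.center Ω (T.coh X).H,
      ∀ a, cz hT g3 hX j (a + 1) = cz hT g3 hX l (a + 1) + cz hT g3 hX l a * w := by
  obtain ⟨w, h1, h2⟩ := cz_whitney hT g3 hX h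
  exact ⟨w 1, c3 _ _ _ w h2 (cz_zero hT g3 hX j) (cz_zero hT g3 hX l) fun i hi => h1 i (by omega)⟩

end chern

end Pool.Agent.H88.VG
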