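import Pool.Agent.H88.VG.Stm
import Pool.Agent.H88.L.X271.TmApp

/-!
# VG-D1: the approximation lemma for multihomogeneous polynomials (helper26)
-/

set_option autoImplicit false

open MvPolynomial Pool.Agent.Y129.TA Pool.Agent.Y129.TB Pool.Agent.H88.VL

namespace Pool.Agent.H88.VG.D1

/-- the weights -/
def wt (k n : ℕ) : Fin k × Fin n → Fin k → ℕ := fun t => Pi.single t.1 1

theorem weight_eq {k n : ℕ} (α : Fin k × Fin n →₀ ℕ) (i : Fin k) :
    Finsupp.weight (wt k n) α i = ∑ j, α (i, j) := by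
  rw [Finsupp.weight_apply, Finsupp.sum_fintype _ _ (fun i => by exact zero_smul ℕ _),
    Finset.sum_apply, Fintype.sum_prod_type, Finset.sum_eq_single i]
  · refine Finset.sum_congr rfl fun j _ => ?_
    simp [wt]
  · intro b _ hb
    refine Finset.sum_eq_zero fun j _ => ?_
    simp [wt, Pi.single_eq_of_ne (Ne.symm hb)]
  · intro h
    exact absurd (Finset.mem_univ _) h

theorem mh_of_multi {K : Type} [Field K] {k n : ℕ} {P : MvPolynomial (Fin k × Fin n) K}
    {a : Fin k → ℕ} (h : MultiHom P a) : IsWeightedHomogeneous (wt k n) P a := by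
  intro α hα
  funext i
  rw [weight_eq]
  exact h α (mem_support_iff.2 hα) i

theorem multi_of_mh {K : Type} [Field K] {k n : ℕ} {P : MvPolynomial (Fin k × Fin n) K}
    {a : Fin k → ℕ} (h : IsWeightedHomogeneous (wt k n) P a) : MultiHom P a := by
  intro α hα i
  rw [← weight_eq, h (mem_support_iff.1 hα)]

theorem main : S_D1 := by
  intro p _ C F K E _ _ _ _ _ _ _ _ 𝓣 B k n c h a hh ε hε
  have key : ∀ j, ∃ (M : ℕ) (g : MvPolynomial (Fin k × Fin n) E),
      IsWeightedHomogeneous (wt k n) g (p ^ M • a j) ∧ ∀ t : Fin k × Fin n → F,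
      (∀ i, 𝓣.absF (t i) ≤ 1) → aeval t g = 0 →
        𝓣.absK (aeval (fun i => 𝓣.sharp (t i)) (h j)) ≤ ε := fun j =>
    Pool.Agent.Y129.TB.X271TM.approxW 𝓣 B (wt k n) (mh_of_multi (hh j)) hε
  choose M g hg hga using key
  refine ⟨M, g, fun j => ?_, fun t ht h0 j => ?_⟩
  · have h1 := multi_of_mh (hg j)
    intro α hα i
    rw [h1 α hα i]
    simp
  · exact hga j (fun s => t s.1 s.2) (fun i => ht i.1 i.2) (h0 j)

end Pool.Agent.H88.VG.D1
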