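import Pool.Agent.H88.VG.Stm

/-!
# Linear forms on homogeneous polynomials; the polynomial of Weyl
-/

set_option autoImplicit false

open MvPolynomial

universe u v

namespace Pool.Agent.H88.VG.D2

theorem main_a : S_D2.{u, v} := by
  intro Ω _ _ R _ _ k n c D a y L μ h P hP
  have hsum : P = ∑ m ∈ P.support, MvPolynomial.C (coeff m P) * ∏ i, X i ^ (m i) := by
    conv_lhs => rw [P.as_sum]
    refine Finset.sum_congr rfl fun m _ => ?_
    rw [monomial_eq, Finsupp.prod_fintype]
    intro i
    exact pow_zero _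
  have hdeg : ∀ m ∈ P.support, ∑ i, m i = D := by
    intro m hm
    have := hP (mem_support_iff.1 hm)
    rw [← this, Finsupp.weight_apply, Finsupp.sum_fintype]
    · simp
    · intro i
      simp
  have hl : L (aeval y P) = ∑ m ∈ P.support, ((coeff m P : ℤ) : Ω) * L (∏ i, y i ^ m i) := by
    conv_lhs => rw [hsum]
    rw [map_sum, map_sum]
    refine Finset.sum_congr rfl fun m _ => ?_
    rw [map_mul, map_prod]
    simp only [map_pow, aeval_X]
    have h1 : (aeval y) (MvPolynomial.C (coeff m P)) * ∏ i, y i ^ m i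
        = ((coeff m P : ℤ) : Ω) • ∏ i, y i ^ m i := by
      rw [Algebra.smul_def]
      congr 1
      simp
    rw [h1, map_smul, smul_eq_mul]
  have hr : inter n a P = ∑ m ∈ P.support, coeff m P * inter n a (∏ i, X i ^ m i) := by
    conv_lhs => rw [hsum]
    unfold inter
    rw [Finset.sum_mul, coeff_sum]
    refine Finset.sum_congr rfl fun m _ => ?_
    rw [mul_assoc, coeff_C_mul]
  rw [hl, hr, Int.cast_sum, Finset.mul_sum]
  refine Finset.sum_congr rfl fun m hm => ?_
  rw [h _ (hdeg m hm), Int.cast_mul]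
  ring

theorem main_b : S_D3 := by
  intro k d
  unfold weyl
  have h1 : (∑ i : Fin k, (X i : MvPolynomial (Fin k) ℤ)).IsHomogeneous 1 :=
    IsHomogeneous.sum _ _ _ fun i _ => isHomogeneous_X ℤ i
  have h2 := h1.pow d
  rw [one_mul] at h2
  apply h2.mul
  have h3 : ∀ i : Fin k, (∏ j ∈ Finset.Ioi i, ((X i : MvPolynomial (Fin k) ℤ) - X j) ^ 2).IsHomogeneous
      (2 * (k - 1 - i.val)) := by
    intro i
    have h4 : ∀ j ∈ Finset.Ioi i, (((X i : MvPolynomial (Fin k) ℤ) - X j) ^ 2).IsHomogeneous 2 := by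
      intro j _
      have := ((isHomogeneous_X ℤ i).sub (isHomogeneous_X ℤ j)).pow 2
      simpa using this
    have h5 := IsHomogeneous.prod (Finset.Ioi i) _ (fun _ => 2) h4
    rw [Finset.sum_const, Fin.card_Ioi, smul_eq_mul, mul_comm] at h5
    exact h5
  have h6 := IsHomogeneous.prod Finset.univ _ _ fun i _ => h3 i
  have h7 : ∑ i : Fin k, 2 * (k - 1 - i.val) = k * (k - 1) := by
    rw [Fin.sum_univ_eq_sum_range fun i => 2 * (k - 1 - i), ← Finset.mul_sum,
      Finset.sum_range_reflect (fun i => i) k, mul_comm, Finset.sum_range_id_mul_two]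
  rw [h7] at h6
  exact h6

theorem main_c : S_D4.{u} := by
  intro R _ k d c x h0 h1
  unfold Th weyl Rp
  simp [h0, h1]

end Pool.Agent.H88.VG.D2
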