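import Pool.Agent.H88.VG.Tilt
import Pool.Agent.H88.VL.Defs

/-!
# The properties of the cohomology in the form used in the proofs; the intermediate varieties
-/

set_option autoImplicit false

open MvPolynomial Pool.Agent.Y129.TA Pool.Agent.Y129.TB Pool.Agent.H88.VL

universe u v

namespace Pool.Agent.H88.VG

variable {C : Type} [Field C] {n : ℕ} {Ω : Type v} [Field Ω]

/-- The properties of the cohomology, except the last one. -/
structure Theory.Good (T : Theory.{u, v} C n Ω) (K : Type) [Field K] [Algebra K C] (q : ℕ) :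
    Prop where
  isLocal : ∀ {X : GSet C n}, X.IsClosed K → (T.coh X).IsLocal q
  map_mem : ∀ {X Y : GSet C n} (f : Mor X Y), X.IsClosed K → Y.IsClosed K → ∀ {i : ℕ} {y},
    y ∈ (T.coh Y).gr i → T.map f y ∈ (T.coh X).gr i
  map_F : ∀ {X Y : GSet C n} (f : Mor X Y), X.IsClosed K → Y.IsClosed K → ∀ y,
    T.map f ((T.coh Y).F y) = (T.coh X).F (T.map f y)
  map_N : ∀ {X Y : GSet C n} (f : Mor X Y), X.IsClosed K → Y.IsClosed K → ∀ y,
    T.map f ((T.coh Y).N y) = (T.coh X).N (T.map f y)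
  map_id : ∀ {X : GSet C n}, X.IsClosed K → ∀ x, T.map (Mor.id X) x = x
  map_comp : ∀ {X Y Z : GSet C n} (g : Mor Y Z) (f : Mor X Y), X.IsClosed K → Y.IsClosed K →
    Z.IsClosed K → ∀ z, T.map (g.comp f) z = T.map f (T.map g z)
  map_congr : ∀ {X Y : GSet C n} (f g : Mor X Y), X.IsClosed K → Y.IsClosed K →
    (∀ x ∈ X.pts, f.app x = g.app x) → ∀ y, T.map f y = T.map g y
  chern_mem : ∀ {X : GSet C n}, X.IsClosed K → ∀ j i, T.chern X j i ∈ (T.coh X).gr (2 * i)
  F_chern : ∀ {X : GSet C n}, X.IsClosed K → ∀ j i,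
    (T.coh X).F (T.chern X j i) = (q : Ω) ^ i • T.chern X j i
  N_chern : ∀ {X : GSet C n}, X.IsClosed K → ∀ j i, (T.coh X).N (T.chern X j i) = 0
  map_chern : ∀ {X Y : GSet C n} (f : Mor X Y), X.IsClosed K → Y.IsClosed K → ∀ j i,
    T.map f (T.chern Y j i) = T.chern X (f.a j) i
  chern_zero : ∀ {X : GSet C n}, X.IsClosed K → ∀ j, T.chern X j 0 = 1
  chern_above : ∀ {X : GSet C n}, X.IsClosed K → ∀ j i, X.r j < i → T.chern X j i = 0
  whitney : ∀ {X : GSet C n}, X.IsClosed K → ∀ l j, (∀ x ∈ X.pts, x l ≤ x j) →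
    ∃ w : ℕ → (T.coh X).H, (∀ i, w i ∈ (T.coh X).gr (2 * i)) ∧
      (∀ i, X.r j < X.r l + i → w i = 0) ∧
      ∀ i, T.chern X j i = ∑ a ∈ Finset.range (i + 1), T.chern X l a * w (i - a)
  empty : ∀ {X : GSet C n}, X.IsClosed K → X.pts = ∅ → ∀ x : (T.coh X).H, x = 0
  descent : ∀ {X Y : GSet C n} (f : Mor X Y), X.IsClosed K → Y.IsClosed K →
    ∀ (B : Set (Y.J → Submodule C (Fin n → C))) (hB : B ⊆ Y.pts), (Y.sub B).IsClosed K →
    f.BijOff B → ∀ i x b, x ∈ (T.coh X).gr i → b ∈ (T.coh (Y.sub B)).gr i →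
      T.map (incl X (f.pre B) fun _ h => h.1) x = T.map (f.restr B) b →
      ∃ y ∈ (T.coh Y).gr i, T.map f y = x ∧ T.map (incl Y B hB) y = b
  descent_unique : ∀ {X Y : GSet C n} (f : Mor X Y), X.IsClosed K → Y.IsClosed K →
    ∀ (B : Set (Y.J → Submodule C (Fin n → C))) (hB : B ⊆ Y.pts), (Y.sub B).IsClosed K →
    f.BijOff B → Function.Surjective (T.map (incl X (f.pre B) fun _ h => h.1)) →
    ∀ y, T.map f y = 0 → T.map (incl Y B hB) y = 0 → y = 0
  bundles : ∀ {X : GSet C n} (j : X.J), X.IsClosed K → (X.subs j 1).IsClosed K → ∀ x,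
    ∃ a : ℕ → (T.coh X).H,
      x = ∑ i ∈ Finset.range (X.r j), T.map (down X j 1) (a i) * T.chern (X.subs j 1) none 1 ^ i

/-- The tilting property for the polynomials `h`, in dimension `D`. -/
def Linked (T : Theory.{u, v} C n Ω) [CharZero Ω] (q : ℕ) {K : Type} [Field K] [Algebra K C] {k c : ℕ}
    (h : Fin c → MvPolynomial (Fin k × Fin n) K) (a : Fin c → Fin k → ℕ) (D : ℕ) : Prop :=
  ∃ (A : Alg.{u, v} Ω) (s : (T.coh (zeros C h)).H →ₐ[Ω] A.H) (t : A.H →ₗ[Ω] Ω) (μ : Ω),
    A.IsLocal q ∧ (∀ i, A.MWPure q i) ∧ (∀ i x, x ∈ (T.coh (zeros C h)).gr i → s x ∈ A.gr i) ∧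
    (∀ x, s ((T.coh (zeros C h)).F x) = A.F (s x)) ∧
    (∀ x, s ((T.coh (zeros C h)).N x) = A.N (s x)) ∧ (∀ x ∈ A.gr (2 * D), t (A.N x) = 0) ∧ μ ≠ 0 ∧
    ∀ e : Fin k → ℕ, ∑ i, e i = D →
      t (s (List.ofFn fun i : Fin k => T.chern (zeros C h) i 1 ^ e i).prod) =
        μ * (inter n a (∏ i, X i ^ e i) : ℤ)

theorem Theory.Ladic.good {p : ℕ} [Fact p.Prime] {F : Type} [Field F] {𝓣 : Tilting p C F}
    {K E : Type} [Field K] [Field E] [Algebra K C] [Algebra E F] [CharZero Ω] {q : ℕ}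
    {T : Theory.{u, v} C n Ω} (h : T.Ladic K q 𝓣 E) : T.Good K q where
  isLocal hX := (h.isLocal hX).isLocal
  map_mem f hX hY i y hy := h.map_mem f hX hY i y hy
  map_F := h.map_F
  map_N := h.map_N
  map_id := h.map_id
  map_comp := h.map_comp
  map_congr := h.map_congr
  chern_mem := h.chern_mem
  F_chern := h.F_chern
  N_chern := h.N_chern
  map_chern := h.map_chern
  chern_zero := h.chern_zero
  chern_above := h.chern_above
  whitney := h.whitney
  empty := h.empty
  descent := h.descent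
  descent_unique := h.descent_unique
  bundles := h.bundles

theorem Theory.Ladic.linked {p : ℕ} [Fact p.Prime] {F : Type} [Field F] {𝓣 : Tilting p C F}
    {K E : Type} [Field K] [Field E] [Algebra K C] [Algebra E F] [CharZero Ω] {q : ℕ}
    {T : Theory.{u, v} C n Ω} (hT : T.Ladic K q 𝓣 E) {k c : ℕ}
    (h : Fin c → MvPolynomial (Fin k × Fin n) K) (a : Fin c → Fin k → ℕ) (D : ℕ) (hn : 0 < n)
    (hh : ∀ j, MultiHom (h j) (a j)) (hD : D + c = k * (n - 1))
    (happ : Approximable 𝓣.toTiltPair E h a) : Linked T q h a D := by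
  obtain ⟨A, s, t, μ, hA, hp, hμ, ht⟩ := hT.tilting h a D hn hh hD happ
  exact ⟨A, s.s, t.t, μ, hA.isLocal, hp, s.mem, s.map_F, s.map_N, t.map_N, hμ, ht⟩

/-! ### The intermediate varieties -/

/-- the dimensions -/
def strk (k s : ℕ) : Option (Fin k) → ℕ := fun o => o.elim s fun i => if i.val < s then 0 else 1

/-- the factor containing the vector `i` -/
def stb (k s : ℕ) : Fin k → Option (Fin k) := fun i => if i.val < s then none else some i

/-- The tuples of a subspace `M` of dimension `s`, zero subspaces for `i < s` and one-dimensional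
subspaces for `i ≥ s`. -/
def St (C : Type) [Field C] {K : Type} [Field K] [Algebra K C] {k n c : ℕ}
    (h : Fin c → MvPolynomial (Fin k × Fin n) K) (s : ℕ) : GSet C n :=
  locus C h (strk k s) (stb k s)

variable {K : Type} [Field K] [Algebra K C] {k c : ℕ} (h : Fin c → MvPolynomial (Fin k × Fin n) K)

/-- The pairs of a point of `St h (s + 1)` and a subspace `M'` of `M` of dimension `s`. -/
def Fl (s : ℕ) : GSet C n := (St C h (s + 1)).subs none s

/-- The triples of a point of `St h (s + 1)`, a subspace `M'` of `M` of dimension `s` and a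
one-dimensional subspace `x` of `M`. -/
def Qs (s : ℕ) : GSet C n := (Fl (C := C) h s).subs (some none) 1

/-- The factors of the map from `Qs h s` to `St h s`. -/
def fa (k s : ℕ) : Option (Fin k) → Option (Option (Option (Fin k)))
  | none => some none
  | some i => if i.val = s then none else some (some (some i))

/-- The points of `St h s` where the one-dimensional subspace `s` is contained in `M`. -/
def Bs {s : ℕ} (hs : s < k) : Set (Option (Fin k) → Submodule C (Fin n → C)) :=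
  {w | w ∈ (St C h s).pts ∧ w (some ⟨s, hs⟩) ≤ w none}

/-- The projection of `Qs` to `St h (s + 1)`. -/
def dn (s : ℕ) : Mor (Qs (C := C) h s) (St C h (s + 1)) :=
  (down (St C h (s + 1)) none s).comp (down (Fl h s) (some none) 1)

end Pool.Agent.H88.VG
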