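import Pool.Agent.H88.VG.Stm

/-! Project VG, step E1a: the top coefficient of the polynomial of Weyl as a determinant. -/

set_option autoImplicit false

open MvPolynomial Pool.Agent.H88.VG

namespace Pool.Agent.H88.VG.E1a

/-- coefficient of the power of the sum -/
theorem coeff_pow {k : ℕ} (N : ℕ) (m : Fin k →₀ ℕ) :
    coeff m ((∑ i, X i : MvPolynomial (Fin k) ℤ) ^ N) =
      if ∑ i, m i = N then (Nat.multinomial Finset.univ m : ℤ) else 0 := by
  classical
  rw [Finset.sum_pow_eq_sum_piAntidiag]
  rw [MvPolynomial.coeff_sum]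
  have h1 : ∀ f : Fin k → ℕ, (∏ i, (X i : MvPolynomial (Fin k) ℤ) ^ f i) =
      monomial (Finsupp.equivFunOnFinite.symm f) 1 := by
    intro f
    rw [MvPolynomial.monomial_eq]
    simp [Finsupp.prod_fintype]
  have h2 : ∀ f : Fin k → ℕ, coeff m ((Nat.multinomial Finset.univ f : MvPolynomial (Fin k) ℤ) *
      ∏ i, (X i : MvPolynomial (Fin k) ℤ) ^ f i) =
      if f = m then (Nat.multinomial Finset.univ m : ℤ) else 0 := by
    intro f
    rw [h1]
    have : (Nat.multinomial Finset.univ f : MvPolynomial (Fin k) ℤ) =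
      C (Nat.multinomial Finset.univ f : ℤ) := by simp
    rw [this, coeff_C_mul, coeff_monomial]
    by_cases hf : f = m
    · subst hf
      simp
    · rw [if_neg, if_neg hf, mul_zero]
      rintro h
      apply hf
      rw [← h]
      rfl
  simp only [h2]
  rw [Finset.sum_ite_eq']
  simp [Finset.mem_piAntidiag]

theorem main : S_E1a := by
  classical
  intro k n N hk hN
  set m := n - 1 with hm
  set t : Fin k →₀ ℕ := Finsupp.equivFunOnFinite.symm fun _ => m with ht
  -- expand the Vandermonde determinant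
  have hV : (∏ i : Fin k, ∏ j ∈ Finset.Ioi i, ((X i : MvPolynomial (Fin k) ℤ) - X j) ^ 2) =
      (Matrix.vandermonde (fun i : Fin k => (X i : MvPolynomial (Fin k) ℤ))).det *
      (Matrix.vandermonde (fun i : Fin k => (X i : MvPolynomial (Fin k) ℤ))).det := by
    rw [Matrix.det_vandermonde, ← Finset.prod_mul_distrib]
    refine Finset.prod_congr rfl fun i _ => ?_
    rw [← Finset.prod_mul_distrib]
    refine Finset.prod_congr rfl fun j _ => ?_
    ring
  have hdet : (Matrix.vandermonde (fun i : Fin k => (X i : MvPolynomial (Fin k) ℤ))).det =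
      ∑ σ : Equiv.Perm (Fin k), monomial (Finsupp.equivFunOnFinite.symm fun i => (σ i).val)
        ((Equiv.Perm.sign σ : ℤ)) := by
    rw [← Matrix.det_transpose, Matrix.det_apply]
    refine Finset.sum_congr rfl fun σ _ => ?_
    simp only [Matrix.transpose_apply, Matrix.vandermonde_apply]
    rw [MvPolynomial.monomial_eq]
    simp [Finsupp.prod_fintype, Units.smul_def]
  have hVV : (∏ i : Fin k, ∏ j ∈ Finset.Ioi i, ((X i : MvPolynomial (Fin k) ℤ) - X j) ^ 2) =
      ∑ σ : Equiv.Perm (Fin k), ∑ τ : Equiv.Perm (Fin k),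
        monomial (Finsupp.equivFunOnFinite.symm fun i => (σ i).val + (τ i).val)
        ((Equiv.Perm.sign σ : ℤ) * (Equiv.Perm.sign τ : ℤ)) := by
    rw [hV, hdet, Finset.sum_mul_sum]
    refine Finset.sum_congr rfl fun σ _ => Finset.sum_congr rfl fun τ _ => ?_
    have e : (Finsupp.equivFunOnFinite.symm fun i => (σ i).val + (τ i).val : Fin k →₀ ℕ) =
      (Finsupp.equivFunOnFinite.symm fun i => (σ i).val) +
        Finsupp.equivFunOnFinite.symm fun i => (τ i).val := by
      ext i
      simp
    rw [monomial_mul, e]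
  have hS : ∀ σ : Equiv.Perm (Fin k), ∑ i, (σ i).val = ∑ i : Fin k, i.val := fun σ =>
    Equiv.sum_comp σ (fun i => i.val)
  have hT : 2 * ∑ i : Fin k, i.val = k * (k - 1) := by
    rw [Fin.sum_univ_eq_sum_range (fun i => i) k, mul_comm]
    exact Finset.sum_range_id_mul_two k
  -- one coefficient
  have hc : ∀ σ τ : Equiv.Perm (Fin k),
      (((coeff t ((∑ i, X i : MvPolynomial (Fin k) ℤ) ^ N *
        monomial (Finsupp.equivFunOnFinite.symm fun i => (σ i).val + (τ i).val)
        ((Equiv.Perm.sign σ : ℤ) * (Equiv.Perm.sign τ : ℤ))) : ℤ)) : ℚ) =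
      N.factorial * ((Equiv.Perm.sign σ : ℤ) : ℚ) * ((Equiv.Perm.sign τ : ℤ) : ℚ) *
        ∏ i, (if (σ i).val + (τ i).val ≤ m then ((m - (σ i).val - (τ i).val).factorial : ℚ)⁻¹ else 0) := by
    intro σ τ
    rw [coeff_mul_monomial']
    by_cases hle : ∀ i, (σ i).val + (τ i).val ≤ m
    · rw [if_pos (by intro i; exact hle i)]
      rw [coeff_pow]
      have hsum : ∑ i, (t - Finsupp.equivFunOnFinite.symm fun i => (σ i).val + (τ i).val) i = N := by
        have e1 : ∀ i, (t - Finsupp.equivFunOnFinite.symm fun i => (σ i).val + (τ i).val) i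
            = m - ((σ i).val + (τ i).val) := fun i => rfl
        simp only [e1]
        have e2 : ∑ i : Fin k, (m - ((σ i).val + (τ i).val)) + ∑ i : Fin k, ((σ i).val + (τ i).val)
            = k * m := by
          rw [← Finset.sum_add_distrib]
          rw [Finset.sum_congr rfl fun i _ => Nat.sub_add_cancel (hle i)]
          simp
        rw [Finset.sum_add_distrib, hS, hS] at e2
        rcases Nat.eq_zero_or_pos k with hk0 | hk0
        · subst hk0
          simp [hN]
        · have e3 : k * m = N + k * (k - 1) := by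
            rw [hN, ← mul_add]
            congr 1
            omega
          omega
      rw [if_pos hsum]
      simp only [if_pos (hle _)]
      have hspec := Nat.multinomial_spec (Finset.univ : Finset (Fin k))
        (⇑(t - Finsupp.equivFunOnFinite.symm fun i => (σ i).val + (τ i).val))
      rw [hsum] at hspec
      have e1 : ∀ i, (t - Finsupp.equivFunOnFinite.symm fun i => (σ i).val + (τ i).val) i
            = m - (σ i).val - (τ i).val := fun i => by
        rw [Nat.sub_sub]
        rfl
      simp only [e1] at hspec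
      rw [← hspec]
      push_cast
      rw [Finset.prod_inv_distrib]
      have h0 : (∏ i, ((m - (σ i).val - (τ i).val).factorial : ℚ)) ≠ 0 :=
        Finset.prod_ne_zero_iff.2 fun i _ => by exact_mod_cast Nat.factorial_ne_zero _
      field_simp
    · rw [if_neg (fun h => hle fun i => h i)]
      push Not at hle
      obtain ⟨i, hi⟩ := hle
      rw [Finset.prod_eq_zero (Finset.mem_univ i) (if_neg (by omega))]
      simp
  unfold weyl
  rw [hVV, Finset.mul_sum, MvPolynomial.coeff_sum]
  simp only [Finset.mul_sum, MvPolynomial.coeff_sum]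
  push_cast
  simp only [hc]
  -- the determinant
  rw [← Matrix.det_transpose, Matrix.det_apply, mul_assoc, Finset.mul_sum]
  have hf : (k.factorial : ℚ) = ∑ _σ : Equiv.Perm (Fin k), (1 : ℚ) := by
    simp [Fintype.card_perm]
  rw [hf, Finset.sum_mul]
  refine Finset.sum_congr rfl fun σ _ => ?_
  rw [one_mul]
  rw [← Equiv.sum_comp (Equiv.mulRight σ)]
  refine Finset.sum_congr rfl fun τ _ => ?_
  have hprod : (∏ i, (if (σ i).val + ((Equiv.mulRight σ τ) i).val ≤ m then
      ((m - (σ i).val - ((Equiv.mulRight σ τ) i).val).factorial : ℚ)⁻¹ else 0)) =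
      ∏ i : Fin k, (if i.val + (τ i).val ≤ m then
        ((m - i.val - (τ i).val).factorial : ℚ)⁻¹ else 0) :=
    Equiv.prod_comp σ (fun i => if i.val + (τ i).val ≤ m then
      ((m - i.val - (τ i).val).factorial : ℚ)⁻¹ else 0)
  rw [hprod]
  simp only [Equiv.coe_mulRight, Matrix.transpose_apply, Matrix.of_apply]
  rw [map_mul, Units.smul_def]
  push_cast
  have hs : (((Equiv.Perm.sign σ : ℤˣ) : ℤ) : ℚ) * (((Equiv.Perm.sign σ : ℤˣ) : ℤ) : ℚ) = 1 := by
    rcases Int.units_eq_one_or (Equiv.Perm.sign σ) with h | h <;> rw [h] <;> norm_num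
  rw [zsmul_eq_mul]
  linear_combination ((N.factorial : ℚ) * ((Equiv.Perm.sign τ : ℤ) : ℚ) *
    ∏ i : Fin k, (if i.val + (τ i).val ≤ m then ((m - i.val - (τ i).val).factorial : ℚ)⁻¹ else 0)) * hs

end Pool.Agent.H88.VG.E1a
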