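import Pool.Agent.H88.VG.Stm

/-! Project VG, step E1b: the determinant of the inverse factorials is not zero. -/

set_option autoImplicit false

open MvPolynomial Pool.Agent.H88.VG

namespace Pool.Agent.H88.VG.E1b

theorem main : S_E1b := by
  intro k n hk
  rcases Nat.eq_zero_or_pos n with h0 | hn
  · subst h0
    obtain rfl : k = 0 := by omega
    simp
  set m := n - 1 with hm
  have hkm : ∀ i : Fin k, i.val ≤ m := fun i => by have := i.isLt; omega
  have key : (Matrix.of fun i j : Fin k =>
      if i.val + j.val ≤ m then ((m - i.val - j.val).factorial : ℚ)⁻¹ else 0) =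
      Matrix.of fun i j : Fin k => ((m - i.val).factorial : ℚ)⁻¹ *
        (Matrix.of fun i j : Fin k => (descPochhammer ℚ j.val).eval (((m - i.val : ℕ)) : ℚ)) i j := by
    ext i j
    simp only [Matrix.of_apply]
    rw [descPochhammer_eval_eq_descFactorial]
    have hi := hkm i
    split_ifs with h
    · have h1 : (m - i.val - j.val).factorial * (m - i.val).descFactorial j.val
          = (m - i.val).factorial := Nat.factorial_mul_descFactorial (by omega)
      have h2 : ((m - i.val).factorial : ℚ) ≠ 0 := by exact_mod_cast Nat.factorial_ne_zero _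
      have h3 : ((m - i.val - j.val).factorial : ℚ) ≠ 0 := by exact_mod_cast Nat.factorial_ne_zero _
      rw [← h1]
      rw [← h1] at h2
      push_cast at h2 ⊢
      obtain ⟨_, h4⟩ := mul_ne_zero_iff.1 h2
      field_simp
    · rw [Nat.descFactorial_of_lt (by omega)]
      simp
  rw [key, Matrix.det_mul_column]
  refine mul_ne_zero (Finset.prod_ne_zero_iff.2 fun i _ => inv_ne_zero (by exact_mod_cast Nat.factorial_ne_zero _)) ?_
  rw [← Matrix.det_eval_matrixOfPolynomials_eq_det_vandermonde (fun i : Fin k => (((m - i.val : ℕ)) : ℚ))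
    (fun j : Fin k => descPochhammer ℚ j.val) (fun j => descPochhammer_natDegree ℚ j.val)
    (fun j => monic_descPochhammer ℚ j.val)]
  rw [Matrix.det_vandermonde_ne_zero_iff]
  intro i j hij
  have hij' : m - i.val = m - j.val := by
    have h : ((m - i.val : ℕ) : ℚ) = ((m - j.val : ℕ) : ℚ) := hij
    exact_mod_cast h
  have := hkm i
  have := hkm j
  ext
  omega

end Pool.Agent.H88.VG.E1b
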