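import Pool.Agent.H88.VG.Stm

/-!
# Varieties of subspaces, E2: polynomials `P` with `P(g v) = det(g) ^ a P(v)`
-/

set_option autoImplicit false

open MvPolynomial Pool.Agent.Y129.TA Pool.Agent.Y129.TB Pool.Agent.H88.VL

universe u v

namespace Pool.Agent.H88.VG.E2

theorem multiHom {C K : Type} [Field C] [Infinite C] [Field K] [Algebra K C] {k n a : ℕ}
    (P : MvPolynomial (Fin k × Fin n) K)
    (h : ∀ (v : Fin k → Fin n → C) (g : Matrix (Fin k) (Fin k) C),
      value C P (fun i => ∑ l, g i l • v l) = g.det ^ a * value C P v) :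
    MultiHom P fun _ => a := by
  classical
  intro α hα i
  by_contra hne
  -- the univariate polynomial
  have hv : ∀ v : Fin k → Fin n → C, ∑ β ∈ P.support with ∑ j, β (i, j) = ∑ j, α (i, j),
      algebraMap K C (coeff β P) * ∏ t : Fin k × Fin n, v t.1 t.2 ^ β t = 0 := by
    intro v
    set p : Polynomial C := ∑ β ∈ P.support,
      Polynomial.C (algebraMap K C (coeff β P) * ∏ t : Fin k × Fin n, v t.1 t.2 ^ β t) *
        Polynomial.X ^ (∑ j, β (i, j)) with hp
    have hpe : p = Polynomial.C (value C P v) * Polynomial.X ^ a := by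
      apply Polynomial.funext
      intro t
      have h1 := h v (Matrix.diagonal fun i' => if i' = i then t else 1)
      have h2 : (fun i' => ∑ l, (Matrix.diagonal fun i' => if i' = i then t else (1 : C)) i' l • v l)
          = fun i' => (if i' = i then t else 1) • v i' := by
        funext i'
        rw [Finset.sum_eq_single i']
        · simp
        · intro b _ hb
          rw [Matrix.diagonal_apply_ne _ (Ne.symm hb), zero_smul]
        · simp
      rw [h2, Matrix.det_diagonal] at h1
      have h3 : (∏ i', if i' = i then t else (1 : C)) = t := by simp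
      rw [h3] at h1
      simp only [Polynomial.eval_mul, Polynomial.eval_pow, Polynomial.eval_X, Polynomial.eval_C]
      rw [mul_comm, ← h1, hp, Polynomial.eval_finsetSum, value, MvPolynomial.aeval_def,
        MvPolynomial.eval₂_eq']
      refine Finset.sum_congr rfl fun β _ => ?_
      simp only [Polynomial.eval_mul, Polynomial.eval_pow, Polynomial.eval_X, Polynomial.eval_C]
      rw [mul_assoc]
      congr 1
      simp only [Pi.smul_apply, smul_eq_mul, mul_pow]
      rw [Finset.prod_mul_distrib, mul_comm]
      congr 1
      rw [Fintype.prod_prod_type]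
      rw [Finset.prod_eq_single i]
      · simp only [if_true]
        rw [Finset.prod_pow_eq_pow_sum]
      · intro b _ hb
        simp [hb]
      · simp
    have h4 := congrArg (fun r => Polynomial.coeff r (∑ j, α (i, j))) hpe
    simp only [Polynomial.coeff_C_mul, Polynomial.coeff_X_pow] at h4
    rw [if_neg hne, mul_zero, hp, Polynomial.finsetSum_coeff] at h4
    rw [← h4, Finset.sum_filter]
    refine Finset.sum_congr rfl fun β _ => ?_
    rw [Polynomial.coeff_C_mul, Polynomial.coeff_X_pow]
    by_cases hb : ∑ j, β (i, j) = ∑ j, α (i, j)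
    · rw [if_pos hb, if_pos hb.symm, mul_one]
    · rw [if_neg hb, if_neg (Ne.symm hb), mul_zero]
  -- the polynomial
  have hz : (∑ β ∈ P.support with ∑ j, β (i, j) = ∑ j, α (i, j),
      monomial β (algebraMap K C (coeff β P)) : MvPolynomial (Fin k × Fin n) C) = 0 := by
    apply MvPolynomial.funext
    intro x
    rw [map_zero, map_sum, ← hv fun i j => x (i, j)]
    refine Finset.sum_congr rfl fun β _ => ?_
    rw [eval_monomial]
    congr 1
    rw [Finsupp.prod_fintype]
    simp
  have hc := congrArg (coeff α) hz
  rw [coeff_sum, Finset.sum_eq_single α] at hc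
  · rw [coeff_monomial, if_pos rfl, coeff_zero] at hc
    exact (mem_support_iff.1 hα) ((map_eq_zero _).1 hc)
  · intro β _ hb
    rw [coeff_monomial, if_neg hb]
  · intro hb
    exact (hb (by rw [Finset.mem_filter]; exact ⟨hα, rfl⟩)).elim

theorem main : S_E2 := by
  intro C K _ _ _ _ k n c h a _ _ hdet
  refine ⟨fun j => multiHom (h j) (hdet j), fun v hv g j => ?_⟩
  rw [hdet j v g, hv j, mul_zero]

end Pool.Agent.H88.VG.E2
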