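import Pool.Agent.H88.VG.Stm

/-!
# Intersection numbers with constant degrees; the field `K` is infinite
-/

set_option autoImplicit false

open MvPolynomial Pool.Agent.Y129.TA

universe u v

namespace Pool.Agent.H88.VG.E3

theorem main_a : S_E3 := by
  intro k n c d a
  unfold inter
  have h1 : ∀ j : Fin c, (∑ i : Fin k, MvPolynomial.C (a j : ℤ) * X i : MvPolynomial (Fin k) ℤ)
      = MvPolynomial.C (a j : ℤ) * ∑ i, X i := fun j => (Finset.mul_sum _ _ _).symm
  have h2 : weyl k d * ∏ j : Fin c, (∑ i : Fin k, MvPolynomial.C (a j : ℤ) * X i)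
      = MvPolynomial.C (∏ j, (a j : ℤ)) * weyl k (d + c) := by
    simp only [h1]
    rw [Finset.prod_mul_distrib, Finset.prod_const, Finset.card_univ, Fintype.card_fin, map_prod]
    unfold weyl
    rw [pow_add]
    ring
  rw [h2, coeff_C_mul]

theorem main_b : S_F1 := by
  intro p C F K _ _ _ _ T
  have h0 : 0 < T.absK (p : C) := T.absK.pos T.p_ne
  have hinj : Function.Injective fun i : ℕ => (p : K) ^ i := by
    intro i j hij
    have h1 : (p : C) ^ i = (p : C) ^ j := by
      have := congrArg (algebraMap K C) hij
      simpa using this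
    have h2 : T.absK (p : C) ^ i = T.absK (p : C) ^ j := by
      rw [← map_pow, ← map_pow, h1]
    exact (pow_right_strictAnti₀ h0 T.p_lt).injective h2
  exact Infinite.of_injective _ hinj

end Pool.Agent.H88.VG.E3
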