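import Pool.Agent.H88.VG.Ind
import Pool.Agent.H88.VL.Stm

/-!
# Varieties of subspaces: the end of the proof
-/

set_option autoImplicit false

open MvPolynomial Pool.Agent.Y129.TA Pool.Agent.Y129.TB Pool.Agent.H88.VL

universe u v

namespace Pool.Agent.H88.VG

/-- all steps -/
structure Steps : Prop where
  a1 : S_A1.{u, v}
  a2 : S_A2
  a3 : S_A3
  a4 : S_A4
  a5 : S_A5
  a6 : S_A6
  b1 : S_B1
  b2 : S_B2
  b4a : S_B4a
  b4b : S_B4b
  c1 : S_C1.{u}
  c2 : S_C2.{u}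
  c3 : S_C3.{u}
  d1 : S_D1
  d2 : S_D2.{u, v}
  d3 : S_D3
  d4 : S_D4.{u}
  f1 : S_F1
  g1 : S_G1.{u, v}
  g2 : S_G2.{u, v}
  g3 : S_G3.{u, v}
  g4 : S_G4.{u, v}
  w1b : S_W1b.{u, v}

variable {C : Type} [Field C] {n k c : ℕ} {Ω : Type v} [Field Ω] [CharZero Ω]
  {T : Theory.{u, v} C n Ω} {K : Type} [Field K] [Algebra K C] {q : ℕ}
  {h : Fin c → MvPolynomial (Fin k × Fin n) K}

omit [CharZero Ω] in
lemma coe_prod (hT : T.Good K q) (g3 : S_G3.{u, v}) {X : GSet C n} (hX : X.IsClosed K)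
    (b : Fin k → X.J) (e : Fin k → ℕ) :
    ((∏ i, cz hT g3 hX (b i) 1 ^ e i : Subalgebra.center Ω (T.coh X).H) : (T.coh X).H) =
      (List.ofFn fun i : Fin k => T.chern X (b i) 1 ^ e i).prod := by
  rw [← List.prod_ofFn]
  have h1 := map_list_prod (Subalgebra.center Ω (T.coh X).H).val
    (List.ofFn fun i : Fin k => cz hT g3 hX (b i) 1 ^ e i)
  rw [List.map_ofFn] at h1
  exact h1

theorem pure_of (W : Steps.{u, v}) [Infinite K] (hq : 1 < q) (hT : T.Good K q)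
    (sat : Saturated C h) {a : Fin c → Fin k → ℕ} {d : ℕ}
    (hI : inter n a (weyl k d) ≠ 0) (hP : (T.coh (grass C h)).IsPoincare d)
    (hL : Linked T q h a (d + k * (k - 1))) (i : ℕ) : (T.coh (grass C h)).MWPure q i := by
  by_cases hi : i ≤ 2 * d
  swap
  · exact W.w1b Ω q i _ (hP.above i (by omega))
  have S := setup_of (C := C) W.a2 W.a5 W.a6 h
  obtain ⟨Φ, Φ2, e, he, p1, p2, p3, p4, p5⟩ := all hT W.g3 W.c1 W.c2 W.c3 W.a3 W.b1 W.b2 W.g1 W.g2
    S sat d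
  simp only [Nat.zero_mul, Nat.add_zero] at he
  rw [← he] at hL
  obtain ⟨A, s, t, μ, hA, hMW, hs, hsF, hsN, htN, hμ, ht⟩ := hL
  have cX : (grass C h).IsClosed K := W.a2 C K k n c h _ _ _
  have cZ : (zeros C h).IsClosed K := W.a2 C K k n c h _ _ _
  let gX : Mor (St C h k) (grass C h) := ⟨fun _ => none, fun _ => rfl, (W.b4a C K k n c h).1⟩
  have rZ : ∀ i : Fin k, strk k 0 (some i) = 1 := fun i => by simp [strk]
  let gZ : Mor (St C h 0) (zeros C h) := ⟨some, rZ, (W.b4b C K k n c h).1⟩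
  obtain ⟨bX, grX⟩ := W.g4 C n Ω T K q hT W.a3 W.a4 _ _ gX (S.cS k) cX
    ((W.b4a C K k n c h).2 gX fun _ => rfl)
  obtain ⟨bZ, grZ⟩ := W.g4 C n Ω T K q hT W.a3 W.a4 _ _ gZ (S.cS 0) cZ
    ((W.b4b C K k n c h).2 gZ fun _ => rfl)
  let β : (T.coh (zeros C h)).H ≃ₐ[Ω] (T.coh (St C h 0)).H := AlgEquiv.ofBijective (T.map gZ) bZ
  have hβ : ∀ x, T.map gZ (β.symm x) = x := fun x => β.apply_symm_apply x
  have lX := hT.isLocal cX
  -- the map and the functional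
  let f : (T.coh (grass C h)).H →ₗ[Ω] A.H :=
    s.toLinearMap ∘ₗ β.symm.toLinearMap ∘ₗ Φ ∘ₗ (T.map gX).toLinearMap
  have hf : ∀ x, f x = s (β.symm (Φ (T.map gX x))) := fun _ => rfl
  let τ : (T.coh (grass C h)).H →ₗ[Ω] Ω :=
    t ∘ₗ s.toLinearMap ∘ₗ β.symm.toLinearMap ∘ₗ Φ2 ∘ₗ (T.map gX).toLinearMap
  have hτ : ∀ x, τ x = t (s (β.symm (Φ2 (T.map gX x)))) := fun _ => rfl
  -- the value of `τ` on the power of the first Chern class
  have key : τ (T.chern (grass C h) () 1 ^ d) ≠ 0 := by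
    have e1 : T.map gX (T.chern (grass C h) () 1 ^ d) = T.chern (St C h k) none 1 ^ d :=
      (map_pow (T.map gX) _ d).trans
        (congrArg (fun z => z ^ d) (hT.map_chern gX (S.cS k) cX () 1))
    have e2 := p5 (cz hT W.g3 (S.cS 0) none) (fun i => cz hT W.g3 (S.cS 0) (some i) 1)
      (fun a => rfl) fun i => rfl
    have c1z : cz hT W.g3 (S.cS 0) none 1 = 0 := cz_above hT W.g3 (S.cS 0) Nat.zero_lt_one
    rw [W.d4 _ k d _ _ (cz_zero hT W.g3 (S.cS 0) none) c1z] at e2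
    have e3 := map_aeval (T.map gZ) (fun i => cz hT W.g3 cZ i 1)
      (fun i => cz hT W.g3 (S.cS 0) (some i) 1) (fun i => map_cz hT W.g3 gZ (S.cS 0) cZ i 1)
      (weyl k d)
    have e4 : β.symm (Φ2 (T.map gX (T.chern (grass C h) () 1 ^ d))) =
        ((aeval (fun i => cz hT W.g3 cZ i 1) (weyl k d) :
          Subalgebra.center Ω (T.coh (zeros C h)).H) : (T.coh (zeros C h)).H) :=
      (congrArg (fun z => β.symm (Φ2 z)) e1).trans ((congrArg β.symm e2).trans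
        ((congrArg β.symm e3.symm).trans (β.symm_apply_apply _)))
    rw [hτ, e4]
    have e5 := W.d2 Ω (Subalgebra.center Ω (T.coh (zeros C h)).H) k n c (d + k * (k - 1)) a
      (fun i => cz hT W.g3 cZ i 1)
      (t ∘ₗ s.toLinearMap ∘ₗ (Subalgebra.center Ω (T.coh (zeros C h)).H).val.toLinearMap) μ
      (fun e' he' => by
        rw [← ht e' (by rw [he', he]), ← coe_prod hT W.g3 cZ (fun i => i) e']
        rfl) (weyl k d) (W.d3 k d)
    have e6 : t (s ((aeval (fun i => cz hT W.g3 cZ i 1) (weyl k d) :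
          Subalgebra.center Ω (T.coh (zeros C h)).H) : (T.coh (zeros C h)).H)) =
        μ * (inter n a (weyl k d) : ℤ) := e5
    rw [e6]
    exact mul_ne_zero hμ (Int.cast_ne_zero.2 hI)
  refine W.a1 Ω q d e i (T.coh (grass C h)) A f t τ hq lX hA hP hi ?_ ?_ ?_ htN ?_ ?_
    (hMW (i + 2 * e))
  · intro j x hx
    rw [hf]
    refine hs _ _ (grZ _ _ ?_)
    rw [hβ]
    exact p1 _ _ (hT.map_mem gX (S.cS k) cX hx)
  · intro x
    rw [hf, hf, ← hsF, ← map_smul, ← map_smul]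
    congr 1
    apply bZ.1
    rw [hβ, hT.map_F gZ (S.cS 0) cZ, hβ, p2, hT.map_F gX (S.cS k) cX]
  · intro x
    rw [hf, hf, ← hsN]
    congr 1
    apply bZ.1
    rw [hβ, hT.map_N gZ (S.cS 0) cZ, hβ, p3, hT.map_N gX (S.cS k) cX]
  · intro x hx hne h0
    obtain ⟨ω, hω, -, hall⟩ := hP.top
    obtain ⟨r, rfl⟩ := hall x hx
    have hb : T.chern (grass C h) () 1 ^ d ∈ (T.coh (grass C h)).gr (2 * d) := by
      have := ((tate_chern hT cX () 1).pow lX d).1
      rwa [one_mul] at this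
    obtain ⟨r', hr'⟩ := hall _ hb
    have hr : r ≠ 0 := fun h => hne (by rw [h, zero_smul])
    rw [map_smul, smul_eq_mul] at h0
    rcases mul_eq_zero.1 h0 with h1 | h1
    · exact hr h1
    · apply key
      rw [hr', map_smul, h1, smul_zero]
  · intro x hx y hy
    rw [hf, hf, hτ, ← map_mul s, ← map_mul β.symm, p4, ← map_mul (T.map gX)]

theorem main_of (W : Steps.{u, v}) {p : ℕ} [Fact p.Prime] {F E : Type} [Field F] [CharP F p]
    [Field E] [Algebra E F] [IsAlgClosed F] {𝓣 : Tilting p C F} (hB : BaseField 𝓣 K E) (hq : 1 < q)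
    (hT : T.Ladic K q 𝓣 E) {a : Fin c → Fin k → ℕ} {d : ℕ} (hn : 0 < n)
    (hh : ∀ j, MultiHom (h j) (a j)) (sat : Saturated C h) (hd : d + k * (k - 1) + c = k * (n - 1))
    (hI : inter n a (weyl k d) ≠ 0) (hP : (T.coh (grass C h)).IsPoincare d) (i : ℕ) :
    (T.coh (grass C h)).MWPure q i := by
  have hinf : Infinite K := W.f1 p C F K 𝓣.toTiltPair
  exact pure_of W hq hT.good sat hI hP
    (hT.linked h a _ hn hh hd (W.d1 p C F K E 𝓣 hB k n c h a hh)) i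

end Pool.Agent.H88.VG
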