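import Pool.Agent.H88.VG.Stm

/-!
# G1: the maps of one step
-/

set_option autoImplicit false

open MvPolynomial Pool.Agent.Y129.TA Pool.Agent.Y129.TB Pool.Agent.H88.VL

universe u v

namespace Pool.Agent.H88.VG.G1

section alg

variable {Ω : Type v} [Field Ω]

/-- additive properties may be checked on homogeneous elements -/
lemma induct {A : Alg.{u, v} Ω} {q : ℕ} (hA : A.IsLocal q) {P : A.H → Prop}
    (h0 : P 0) (hadd : ∀ x y, P x → P y → P (x + y)) (hh : ∀ i, ∀ x ∈ A.gr i, P x) (x : A.H) :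
    P x := by
  have htop : x ∈ ⨆ i, A.gr i := by
    rw [hA.internal.submodule_iSup_eq_top]
    trivial
  exact Submodule.iSup_induction A.gr (motive := P) htop hh h0 hadd

/-- elements of even degree are central -/
lemma comm_even {A : Alg.{u, v} Ω} {q : ℕ} (hA : A.IsLocal q) {i : ℕ} {x : A.H}
    (hx : x ∈ A.gr (2 * i)) (y : A.H) : x * y = y * x := by
  refine induct hA (P := fun y => x * y = y * x) ?_ ?_ ?_ y
  · rw [mul_zero, zero_mul]
  · intro a b ha hb
    rw [mul_add, add_mul, ha, hb]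
  · intro j y hy
    rw [hA.comm hx hy, mul_assoc, pow_mul]
    simp

end alg

section

variable {C : Type} [Field C] {n : ℕ} {Ω : Type v} [Field Ω]
  {T : Theory.{u, v} C n Ω} {K : Type} [Field K] [Algebra K C] {q : ℕ} (hT : T.Good K q)
  {X Q W : GSet C n} (g : Mor Q X) (f : Mor Q W)
  {B : Set (W.J → Submodule C (Fin n → C))} (hB : B ⊆ W.pts) {E : (T.coh W).H} {e : ℕ}
  (cX : X.IsClosed K) (cQ : Q.IsClosed K) (cW : W.IsClosed K) (cB : (W.sub B).IsClosed K)
  (cP : (Q.sub (f.pre B)).IsClosed K) (hf : f.BijOff B)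

include hT cQ cW cB cP in
/-- restriction of a pull-back -/
lemma restr_map (z : (T.coh W).H) :
    T.map (incl Q (f.pre B) fun _ h => h.1) (T.map f z) =
      T.map (f.restr B) (T.map (incl W B hB) z) := by
  rw [← hT.map_comp _ _ cP cQ cW, ← hT.map_comp _ _ cP cB cW]
  exact hT.map_congr _ _ cP cW (fun x _ => rfl) z

include hT cX cQ cW cB cP hf in
/-- existence on the homogeneous elements -/
lemma ex_gr {D : (T.coh W).H} {d : ℕ} (hD : D ∈ (T.coh W).gr d)
    (hDB : T.map (incl W B hB) D = 0) (i : ℕ) (x : (T.coh X).H) (hx : x ∈ (T.coh X).gr i) :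
    ∃ z ∈ (T.coh W).gr (i + d), T.map f z = T.map g x * T.map f D ∧
      T.map (incl W B hB) z = 0 := by
  have h1 : T.map g x * T.map f D ∈ (T.coh Q).gr (i + d) :=
    (hT.isLocal cQ).mul_mem (hT.map_mem g cQ cX hx) (hT.map_mem f cQ cW hD)
  have h2 : T.map (incl Q (f.pre B) fun _ h => h.1) (T.map g x * T.map f D) =
      T.map (f.restr B) 0 := by
    rw [map_mul, restr_map hT f hB cQ cW cB cP, hDB, map_zero, mul_zero]
  exact hT.descent f cQ cW B hB cB hf (i + d) _ 0 h1 (Submodule.zero_mem _) h2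

include hT cX cQ cW cB cP hf in
/-- the map for the class `D` -/
lemma ex_map (hs : Function.Surjective (T.map (incl Q (f.pre B) fun _ h => h.1)))
    {D : (T.coh W).H} {d : ℕ} (hD : D ∈ (T.coh W).gr d) (hDB : T.map (incl W B hB) D = 0) :
    ∃ φ : (T.coh X).H →ₗ[Ω] (T.coh W).H,
      (∀ x, T.map f (φ x) = T.map g x * T.map f D) ∧ (∀ x, T.map (incl W B hB) (φ x) = 0) ∧
      ∀ i, ∀ x ∈ (T.coh X).gr i, φ x ∈ (T.coh W).gr (i + d) := by
  have ex : ∀ x : (T.coh X).H, ∃ z, T.map f z = T.map g x * T.map f D ∧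
      T.map (incl W B hB) z = 0 := by
    intro x
    refine induct (hT.isLocal cX) (P := fun x => ∃ z, T.map f z = T.map g x * T.map f D ∧
      T.map (incl W B hB) z = 0) ?_ ?_ ?_ x
    · exact ⟨0, by rw [map_zero, map_zero, zero_mul], map_zero _⟩
    · rintro x y ⟨a, ha, ha'⟩ ⟨b, hb, hb'⟩
      exact ⟨a + b, by rw [map_add, map_add, ha, hb, add_mul], by rw [map_add, ha', hb', add_zero]⟩
    · intro i x hx
      obtain ⟨z, -, h1, h2⟩ := ex_gr hT g f hB cX cQ cW cB cP hf hD hDB i x hx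
      exact ⟨z, h1, h2⟩
  have uq : ∀ z z' : (T.coh W).H, T.map f z = T.map f z' →
      T.map (incl W B hB) z = T.map (incl W B hB) z' → z = z' := by
    intro z z' h1 h2
    rw [← sub_eq_zero]
    apply hT.descent_unique f cQ cW B hB cB hf hs
    · rw [map_sub, h1, sub_self]
    · rw [map_sub, h2, sub_self]
  choose φ hφ hφ' using ex
  let Φ : (T.coh X).H →ₗ[Ω] (T.coh W).H :=
    { toFun := φ
      map_add' := fun x y => by
        apply uq
        · rw [hφ, map_add, map_add, hφ, hφ, add_mul]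
        · rw [hφ', map_add, hφ', hφ', add_zero]
      map_smul' := fun r x => by
        apply uq
        · rw [hφ, RingHom.id_apply, map_smul, map_smul, hφ, smul_mul_assoc]
        · rw [hφ', RingHom.id_apply, map_smul, hφ', smul_zero] }
  refine ⟨Φ, hφ, hφ', ?_⟩
  intro i x hx
  obtain ⟨z, hz, h1, h2⟩ := ex_gr hT g f hB cX cQ cW cB cP hf hD hDB i x hx
  have : Φ x = z := uq _ _ ((hφ x).trans h1.symm) ((hφ' x).trans h2.symm)
  rw [this]
  exact hz

end

theorem main : S_G1.{u, v} := by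
  intro C _ n Ω _ _ T K _ _ q hT X Q W g f B hB E e cX cQ cW cB cP hf hs hE hFE hNE hEB
  have hE2 : E * E ∈ (T.coh W).gr (2 * e + 2 * e) := (hT.isLocal cW).mul_mem hE hE
  have hE2B : T.map (incl W B hB) (E * E) = 0 := by rw [map_mul, hEB, zero_mul]
  obtain ⟨φ, h1, h2, h3⟩ := ex_map hT g f hB cX cQ cW cB cP hf hs hE hEB
  obtain ⟨φ2, k1, k2, -⟩ := ex_map hT g f hB cX cQ cW cB cP hf hs hE2 hE2B
  have uq : ∀ z z' : (T.coh W).H, T.map f z = T.map f z' →
      T.map (incl W B hB) z = T.map (incl W B hB) z' → z = z' := by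
    intro z z' h1 h2
    rw [← sub_eq_zero]
    apply hT.descent_unique f cQ cW B hB cB hf hs
    · rw [map_sub, h1, sub_self]
    · rw [map_sub, h2, sub_self]
  have hcen : ∀ y, T.map f E * y = y * T.map f E :=
    comm_even (hT.isLocal cQ) (hT.map_mem f cQ cW hE)
  refine ⟨φ, φ2, h3, fun x => ?_, fun x => ?_, fun x y => ?_, fun x z hz hz' => ?_⟩
  · apply uq
    · rw [hT.map_F f cQ cW, h1, map_mul, map_smul, h1, ← hT.map_F f cQ cW, hFE, map_smul,
        hT.map_F g cQ cX, mul_smul_comm]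
    · rw [hT.map_F _ cB cW, h2, map_smul, h2, smul_zero, map_zero]
  · apply uq
    · rw [hT.map_N f cQ cW, h1, h1, (hT.isLocal cQ).N_mul, ← hT.map_N f cQ cW, hNE, map_zero,
        mul_zero, add_zero, hT.map_N g cQ cX]
    · rw [hT.map_N _ cB cW, h2, h2, map_zero]
  · apply uq
    · rw [map_mul, h1, h1, k1, map_mul, map_mul]
      calc T.map g x * T.map f E * (T.map g y * T.map f E)
          = T.map g x * (T.map f E * T.map g y) * T.map f E := by simp only [mul_assoc]
        _ = T.map g x * (T.map g y * T.map f E) * T.map f E := by rw [hcen]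
        _ = T.map g x * T.map g y * (T.map f E * T.map f E) := by simp only [mul_assoc]
    · rw [map_mul, h2, zero_mul, k2]
  · apply uq
    · rw [k1, hz, map_mul, mul_assoc]
    · rw [k2, hz']

end Pool.Agent.H88.VG.G1
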