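import Pool.Agent.H88.VG.Stm

/-!
# G2: surjectivity of the restriction
-/

set_option autoImplicit false

open MvPolynomial Pool.Agent.Y129.TA Pool.Agent.Y129.TB Pool.Agent.H88.VL

universe u v

namespace Pool.Agent.H88.VG.G2

theorem main : S_G2.{u, v} := by
  intro C _ n Ω _ T K _ _ q hT k c h s hs f hf cFl cQ cV cP x
  have hPV : ∀ z ∈ ((Qs (C := C) h s).sub (f.pre (Bs h hs))).pts,
      z ∈ ((Fl (C := C) h s).subs none 1).pts := by
    rintro z ⟨⟨h1, h2, h3⟩, h4, h5⟩
    refine ⟨h1, h2, ?_⟩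
    have e1 : f.app z (some ⟨s, hs⟩) = z none := by
      change z (f.a (some ⟨s, hs⟩)) = z none
      rw [hf]
      exact congrArg z (if_pos rfl)
    have e2 : f.app z none = z (some none) := by
      change z (f.a none) = z (some none)
      rw [hf]
      rfl
    rw [e1, e2] at h5
    exact h5
  have hVP : ∀ z ∈ ((Fl (C := C) h s).subs none 1).pts,
      z ∈ ((Qs (C := C) h s).sub (f.pre (Bs h hs))).pts := by
    rintro z ⟨h1, h2, h3⟩
    have hQ : z ∈ (Qs (C := C) h s).pts := ⟨h1, h2, h3.trans h1.2.2⟩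
    refine ⟨hQ, f.maps z hQ, ?_⟩
    have e1 : f.app z (some ⟨s, hs⟩) = z none := by
      change z (f.a (some ⟨s, hs⟩)) = z none
      rw [hf]
      exact congrArg z (if_pos rfl)
    have e2 : f.app z none = z (some none) := by
      change z (f.a none) = z (some none)
      rw [hf]
      rfl
    rw [e1, e2]
    exact h3
  let P : GSet C n := (Qs (C := C) h s).sub (f.pre (Bs h hs))
  let V : GSet C n := (Fl (C := C) h s).subs none 1
  let a₁ : Mor P V := ⟨fun j => j, fun _ => rfl, fun z hz => hPV z hz⟩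
  let a₂ : Mor V P := ⟨fun j => j, fun _ => rfl, fun z hz => hVP z hz⟩
  let ι : Mor P (Qs (C := C) h s) := incl (Qs h s) (f.pre (Bs h hs)) fun _ h => h.1
  let d₁ : Mor V (Fl (C := C) h s) := down (Fl (C := C) h s) none 1
  let d₂ : Mor (Qs (C := C) h s) (Fl (C := C) h s) := down (Fl (C := C) h s) (some none) 1
  have hbd : ∃ a : ℕ → (T.coh (Fl (C := C) h s)).H, T.map a₂ x =
      ∑ i ∈ Finset.range ((Fl (C := C) h s).r none), T.map d₁ (a i) * T.chern V none 1 ^ i :=
    hT.bundles (X := Fl (C := C) h s) none cFl cV (T.map a₂ x)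
  obtain ⟨a, ha⟩ := hbd
  refine ⟨∑ i ∈ Finset.range ((Fl (C := C) h s).r none),
    T.map d₂ (a i) * T.chern (Qs (C := C) h s) none 1 ^ i, ?_⟩
  have hx : T.map a₁ (T.map a₂ x) = x :=
    ((hT.map_comp a₂ a₁ cP cV cP x).symm.trans
      (hT.map_congr (a₂.comp a₁) (Mor.id P) cP cP (fun _ _ => rfl) x)).trans (hT.map_id cP x)
  change T.map ι _ = x
  rw [← hx, ha, map_sum, map_sum]
  refine Finset.sum_congr rfl fun i _ => ?_
  rw [map_mul, map_mul, map_pow, map_pow]
  have e1 : T.map a₁ (T.chern V none 1) = T.chern P none 1 := hT.map_chern a₁ cP cV none 1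
  have e2 : T.map ι (T.chern (Qs (C := C) h s) none 1) = T.chern P none 1 :=
    hT.map_chern ι cP cQ none 1
  have e3 : T.map a₁ (T.map d₁ (a i)) = T.map ι (T.map d₂ (a i)) :=
    ((hT.map_comp d₁ a₁ cP cV cFl (a i)).symm.trans
      (hT.map_congr (d₁.comp a₁) (d₂.comp ι) cP cFl (fun _ _ => rfl) (a i))).trans
      (hT.map_comp d₂ ι cP cQ cFl (a i))
  rw [e1, e2, e3]

end Pool.Agent.H88.VG.G2
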