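import Pool.Agent.H88.VG.Stm

/-!
# Homogeneous elements of even degree are central; bijective morphisms
-/

set_option autoImplicit false

open MvPolynomial Pool.Agent.Y129.TA Pool.Agent.Y129.TB Pool.Agent.H88.VL

universe u v

namespace Pool.Agent.H88.VG.G3

variable {Ω : Type v} [Field Ω]

/-- additive properties may be checked on homogeneous elements -/
theorem induction {A : Alg.{u, v} Ω} {q : ℕ} (hA : A.IsLocal q) {P : A.H → Prop}
    (h0 : P 0) (hadd : ∀ x y, P x → P y → P (x + y)) (hh : ∀ i, ∀ x ∈ A.gr i, P x) (x : A.H) :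
    P x := by
  have htop : x ∈ ⨆ i, A.gr i := by
    rw [hA.internal.submodule_iSup_eq_top]
    trivial
  exact Submodule.iSup_induction A.gr (motive := P) htop hh h0 hadd

theorem main_a : S_G3.{u, v} := by
  intro Ω _ q A hA i x hx y
  refine induction hA (P := fun y => x * y = y * x) ?_ ?_ ?_ y
  · rw [mul_zero, zero_mul]
  · intro a b ha hb
    rw [mul_add, add_mul, ha, hb]
  · intro j y hy
    rw [hA.comm hx hy, mul_assoc, pow_mul]
    simp

theorem main_b : S_G4.{u, v} := by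
  intro C _ n Ω _ T K _ _ q hT h3 h4 X Y f hX hY hf
  have hB : (∅ : Set (Y.J → Submodule C (Fin n → C))) ⊆ Y.pts := Set.empty_subset _
  have hBc : (Y.sub ∅).IsClosed K := h4 C K n Y hY
  have hpc : (X.sub (f.pre ∅)).IsClosed K := h3 C K n X Y f ∅ hX hBc
  have hpe : (X.sub (f.pre ∅)).pts = ∅ := by
    ext x
    constructor
    · rintro ⟨-, h⟩
      exact h
    · intro h
      exact h.elim
  have ex : ∀ i, ∀ x ∈ (T.coh X).gr i, ∃ y ∈ (T.coh Y).gr i, T.map f y = x := by
    intro i x hx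
    obtain ⟨y, hy, h1, -⟩ := hT.descent f hX hY ∅ hB hBc hf i x 0 hx (Submodule.zero_mem _)
      ((hT.empty hpc hpe _).trans (hT.empty hpc hpe _).symm)
    exact ⟨y, hy, h1⟩
  have inj : Function.Injective (T.map f) := by
    rw [injective_iff_map_eq_zero]
    intro y hy
    refine hT.descent_unique f hX hY ∅ hB hBc hf ?_ y hy (hT.empty hBc rfl _)
    intro x
    exact ⟨0, (hT.empty hpc hpe _).trans (hT.empty hpc hpe _).symm⟩
  refine ⟨⟨inj, ?_⟩, ?_⟩
  · intro x
    refine induction (hT.isLocal hX) (P := fun x => ∃ y, T.map f y = x) ⟨0, map_zero _⟩ ?_ ?_ x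
    · rintro x y ⟨a, rfl⟩ ⟨b, rfl⟩
      exact ⟨a + b, map_add _ _ _⟩
    · intro i x hx
      obtain ⟨y, -, hy⟩ := ex i x hx
      exact ⟨y, hy⟩
  · intro i y hy
    obtain ⟨y', hy', h1⟩ := ex i _ hy
    rwa [← inj h1]

end Pool.Agent.H88.VG.G3
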