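import Pool.Agent.H88.VG.Cen

/-!
# Varieties of subspaces: the induction
-/

set_option autoImplicit false

open MvPolynomial Pool.Agent.Y129.TA Pool.Agent.Y129.TB Pool.Agent.H88.VL

universe u v

namespace Pool.Agent.H88.VG

/-! ### Tate classes -/

section tate

variable {Ω : Type v} [Field Ω]

/-- the classes of degree `2 i` on which `F` is the multiplication by `q ^ i` and `N` is zero -/
def Tate (A : Alg.{u, v} Ω) (q i : ℕ) (x : A.H) : Prop :=
  x ∈ A.gr (2 * i) ∧ A.F x = (q : Ω) ^ i • x ∧ A.N x = 0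

variable {A : Alg.{u, v} Ω} {q : ℕ} (hA : A.IsLocal q)

lemma Tate.add {i : ℕ} {x y : A.H} (hx : Tate A q i x) (hy : Tate A q i y) : Tate A q i (x + y) :=
  ⟨Submodule.add_mem _ hx.1 hy.1, by rw [map_add, hx.2.1, hy.2.1, smul_add],
    by rw [map_add, hx.2.2, hy.2.2, add_zero]⟩

lemma Tate.zero {i : ℕ} : Tate A q i 0 := ⟨Submodule.zero_mem _, by simp, by simp⟩

lemma Tate.neg {i : ℕ} {x : A.H} (hx : Tate A q i x) : Tate A q i (-x) :=
  ⟨Submodule.neg_mem _ hx.1, by rw [map_neg, hx.2.1, smul_neg], by rw [map_neg, hx.2.2, neg_zero]⟩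

lemma Tate.sum {τ : Type*} {i : ℕ} (s : Finset τ) {x : τ → A.H} (h : ∀ t ∈ s, Tate A q i (x t)) :
    Tate A q i (∑ t ∈ s, x t) := by
  classical
  induction s using Finset.induction_on with
  | empty => simpa using Tate.zero
  | insert a s ha ih =>
    rw [Finset.sum_insert ha]
    exact (h a (Finset.mem_insert_self _ _)).add (ih fun t ht => h t (Finset.mem_insert_of_mem ht))

include hA

lemma Tate.one : Tate A q 0 1 := by
  refine ⟨hA.one_mem, by simp, ?_⟩
  have := hA.N_mul 1 1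
  rw [mul_one, one_mul, mul_one] at this
  simpa using this

lemma Tate.mul {i j : ℕ} {x y : A.H} (hx : Tate A q i x) (hy : Tate A q j y) :
    Tate A q (i + j) (x * y) := by
  refine ⟨?_, ?_, ?_⟩
  · have := hA.mul_mem hx.1 hy.1
    rwa [← mul_add] at this
  · rw [map_mul, hx.2.1, hy.2.1, smul_mul_smul_comm, pow_add]
  · rw [hA.N_mul, hx.2.2, hy.2.2, zero_mul, mul_zero, add_zero]

lemma Tate.pow {i : ℕ} {x : A.H} (hx : Tate A q i x) (m : ℕ) : Tate A q (i * m) (x ^ m) := by
  induction m with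
  | zero => simpa using Tate.one hA
  | succ m ih =>
    rw [pow_succ, mul_add, mul_one]
    exact ih.mul hA hx

end tate

section

variable {C : Type} [Field C] {n : ℕ} {Ω : Type v} [Field Ω] {T : Theory.{u, v} C n Ω} {K : Type}
  [Field K] [Algebra K C] {q : ℕ} (hT : T.Good K q) (g3 : S_G3.{u, v})

lemma tate_chern {X : GSet C n} (hT : T.Good K q) (hX : X.IsClosed K) (j : X.J) (i : ℕ) :
    Tate (T.coh X) q i (T.chern X j i) := ⟨hT.chern_mem hX j i, hT.F_chern hX j i, hT.N_chern hX j i⟩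

lemma tate_Rp {X : GSet C n} (hX : X.IsClosed K) (s : ℕ) (j l : X.J) :
    Tate (T.coh X) q s
      ((Rp s (cz hT g3 hX j) (cz hT g3 hX l 1) : Subalgebra.center Ω (T.coh X).H) : (T.coh X).H) := by
  have hA := hT.isLocal hX
  unfold Rp
  rw [AddSubmonoidClass.coe_finsetSum]
  refine Tate.sum _ fun a ha => ?_
  have h1 : a ≤ s := Nat.lt_succ_iff.1 (Finset.mem_range.1 ha)
  have h2 := (tate_chern hT hX j a).mul hA ((tate_chern hT hX l 1).pow hA (s - a))
  rw [one_mul, Nat.add_sub_cancel' h1] at h2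
  have e : (((-1) ^ a * cz hT g3 hX j a * cz hT g3 hX l 1 ^ (s - a) :
      Subalgebra.center Ω (T.coh X).H) : (T.coh X).H) =
      (-1) ^ a * (T.chern X j a * T.chern X l 1 ^ (s - a)) := by
    rw [← mul_assoc]
    rfl
  have key : ∀ z : (T.coh X).H, z = (-1) ^ a * (T.chern X j a * T.chern X l 1 ^ (s - a)) →
      Tate (T.coh X) q s z := by
    rintro z rfl
    rcases neg_one_pow_eq_or (T.coh X).H a with h3 | h3
    · rw [h3, one_mul]
      exact h2
    · rw [h3, neg_one_mul]
      exact h2.neg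
  exact key _ e

end

/-! ### The induction -/

/-- the sets are closed -/
structure Setup {C : Type} [Field C] {n k c : ℕ} (K : Type) [Field K] [Algebra K C]
    (h : Fin c → MvPolynomial (Fin k × Fin n) K) : Prop where
  cS : ∀ s, (St C h s).IsClosed K
  cF : ∀ s, (Fl (C := C) h s).IsClosed K
  cF1 : ∀ s, ((Fl (C := C) h s).subs none 1).IsClosed K
  cQ : ∀ s, (Qs (C := C) h s).IsClosed K
  cB : ∀ s (hs : s < k), ((St C h s).sub (Bs h hs)).IsClosed K

lemma subs_closed (a5 : S_A5) (a6 : S_A6) {C K : Type} [Field C] [Field K] [Algebra K C] {n : ℕ}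
    {X : GSet C n} (hX : X.IsClosed K) (j : X.J) (s : ℕ) : (X.subs j s).IsClosed K := by
  have h1 := a6 C K n _ none (some j) (a5 C K n X s hX)
  have e : {z : Option X.J → Submodule C (Fin n → C) | (fun i => z (some i)) ∈ X.pts ∧
      Module.finrank C (z none) = s ∧ z none ≤ z (some j)} =
      {z | z ∈ {z : Option X.J → Submodule C (Fin n → C) | (fun i => z (some i)) ∈ X.pts ∧
        Module.finrank C (z none) = s} ∧ z none ≤ z (some j)} := by
    ext z
    simp only [Set.mem_ofPred_eq, and_assoc]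
  unfold GSet.subs
  rw [e]
  exact h1

theorem setup_of (a2 : S_A2) (a5 : S_A5) (a6 : S_A6) {C K : Type} [Field C] [Field K]
    [Algebra K C] [Infinite K] {n k c : ℕ} (h : Fin c → MvPolynomial (Fin k × Fin n) K) :
    Setup (C := C) K h := by
  have cS : ∀ s, (St C h s).IsClosed K := fun s => a2 C K k n c h _ _ _
  have cF : ∀ s, (Fl (C := C) h s).IsClosed K := fun s => subs_closed a5 a6 (cS (s + 1)) none s
  exact
    { cS := cS
      cF := cF
      cF1 := fun s => subs_closed a5 a6 (cF s) none 1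
      cQ := fun s => subs_closed a5 a6 (cF s) (some none) 1
      cB := fun s hs => a6 C K n (St C h s) (some ⟨s, hs⟩) none (cS s) }

variable {C : Type} [Field C] {n k c : ℕ} {Ω : Type v} [Field Ω] [CharZero Ω]
  {T : Theory.{u, v} C n Ω} {K : Type} [Field K] [Algebra K C] {q : ℕ}
  {h : Fin c → MvPolynomial (Fin k × Fin n) K}

/-- The statement proved by induction. -/
def Pst (T : Theory.{u, v} C n Ω) (q : ℕ) (h : Fin c → MvPolynomial (Fin k × Fin n) K) (d s : ℕ) :
    Prop :=
  ∃ (Φ Φ2 : (T.coh (St C h k)).H →ₗ[Ω] (T.coh (St C h s)).H) (e : ℕ),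
    2 * e + s * (s - 1) = k * (k - 1) ∧
    (∀ j x, x ∈ (T.coh (St C h k)).gr j → Φ x ∈ (T.coh (St C h s)).gr (j + 2 * e)) ∧
    (∀ x, (T.coh (St C h s)).F (Φ x) = (q : Ω) ^ e • Φ ((T.coh (St C h k)).F x)) ∧
    (∀ x, (T.coh (St C h s)).N (Φ x) = Φ ((T.coh (St C h k)).N x)) ∧
    (∀ x y, Φ x * Φ y = Φ2 (x * y)) ∧
    ∀ (c : ℕ → Subalgebra.center Ω (T.coh (St C h s)).H)
      (x : Fin k → Subalgebra.center Ω (T.coh (St C h s)).H),
      (∀ a, (c a : (T.coh (St C h s)).H) = T.chern (St C h s) none a) →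
      (∀ i, (x i : (T.coh (St C h s)).H) = T.chern (St C h s) (some i) 1) →
      Φ2 (T.chern (St C h k) none 1 ^ d) =
        ((Th k d s c x : Subalgebra.center Ω (T.coh (St C h s)).H) : (T.coh (St C h s)).H)

lemma base_case (d : ℕ) : Pst T q h d k := by
  refine ⟨LinearMap.id, LinearMap.id, 0, by omega, fun j x hx => hx, fun x => by simp,
    fun x => rfl, fun x y => rfl, fun c x hc hx => ?_⟩
  have e : (Finset.univ.filter fun i : Fin k => k ≤ i.val) = ∅ := by
    apply Finset.filter_false_of_mem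
    intro i _
    exact not_le.2 i.2
  unfold Th
  rw [e, Finset.sum_empty, Finset.prod_empty, Finset.prod_empty, add_zero, mul_one, mul_one,
    LinearMap.id_apply, ← hc]
  rfl

/-- the map `(M, M', x) ↦ (M', x)` -/
def fm (b1 : S_B1) (h : Fin c → MvPolynomial (Fin k × Fin n) K) {s : ℕ} (hs : s < k) :
    Mor (Qs (C := C) h s) (St C h s) :=
  ⟨fa k s, (b1 C K k n c h s hs).1, (b1 C K k n c h s hs).2⟩

theorem step (hT : T.Good K q) (g3 : S_G3.{u, v}) (c1 : S_C1.{u}) (c2 : S_C2.{u}) (c3 : S_C3.{u})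
    (a3 : S_A3) (b1 : S_B1) (b2 : S_B2) (g1 : S_G1.{u, v}) (g2 : S_G2.{u, v})
    (S : Setup (C := C) K h) (sat : Saturated C h) {d s : ℕ} (hs : s < k)
    (hP : Pst T q h d (s + 1)) : Pst T q h d s := by
  obtain ⟨Φ, Φ2, e, he, p1, p2, p3, p4, p5⟩ := hP
  have cX := S.cS (s + 1)
  have cW := S.cS s
  have cQ := S.cQ s
  have cB := S.cB s hs
  set f := fm (C := C) b1 h hs with hf
  have hB : Bs (C := C) h hs ⊆ (St C h s).pts := fun w hw => hw.1
  have cE := a3 C K n _ _ f (Bs h hs) cQ cB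
  have hbij : f.BijOff (Bs h hs) := b2 C K k n c h s hs sat f rfl
  have hsurj := g2 C n Ω T K q hT k c h s hs f rfl (S.cF s) cQ (S.cF1 s) cE
  set E : (T.coh (St C h s)).H := ((Rp s (cz hT g3 cW none) (cz hT g3 cW (some ⟨s, hs⟩) 1) :
    Subalgebra.center Ω (T.coh (St C h s)).H) : (T.coh (St C h s)).H) with hE
  have tE : Tate (T.coh (St C h s)) q s E := tate_Rp hT g3 cW s none (some ⟨s, hs⟩)
  -- the class vanishes on `B`
  have inc : Rp s (cz hT g3 cB none) (cz hT g3 cB (some ⟨s, hs⟩) 1) = 0 := by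
    refine incidence hT g3 c2 cB (l := some ⟨s, hs⟩) (j := none) ?_ fun x hx => hx.2
    change strk k s (some ⟨s, hs⟩) = 1
    simp [strk]
  have hcB : ∀ j i, T.map (incl (St C h s) (Bs h hs) hB) (cz hT g3 cW j i) = cz hT g3 cB j i :=
    fun j i => map_cz hT g3 (incl (St C h s) (Bs h hs) hB) cB cW j i
  have hEB : T.map (incl (St C h s) (Bs h hs) hB) E = 0 := by
    rw [hE, map_cRp (T.map (incl (St C h s) (Bs h hs) hB)) s
      (c' := cz hT g3 cB none) (t' := cz hT g3 cB (some ⟨s, hs⟩) 1) (fun a => hcB _ _) (hcB _ _), inc]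
    rfl
  obtain ⟨φ, φ2, q1, q2, q3, q4, q5⟩ := g1 C n Ω T K q hT (St C h (s + 1)) (Qs h s) (St C h s)
    (dn h s) f (Bs h hs) hB E s cX cQ cW cB cE hbij hsurj tE.1 tE.2.1 tE.2.2 hEB
  refine ⟨φ ∘ₗ Φ, φ2 ∘ₗ Φ2, e + s, ?_, ?_, ?_, ?_, ?_, ?_⟩
  · rw [← he]
    rcases s with _ | s
    · simp
    · simp only [Nat.add_sub_cancel]
      ring
  · intro j x hx
    have := q1 _ _ (p1 j x hx)
    rw [add_assoc, ← mul_add] at this
    exact this
  · intro x
    change (T.coh (St C h s)).F (φ (Φ x)) = _ • φ (Φ _)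
    rw [q2, p2, map_smul, smul_smul, ← pow_add, add_comm s e]
  · intro x
    change (T.coh (St C h s)).N (φ (Φ x)) = φ (Φ _)
    rw [q3, p3]
  · intro x y
    change φ (Φ x) * φ (Φ y) = φ2 (Φ2 _)
    rw [q4, p4]
  · intro c' x' hc' hx'
    have ec : c' = cz hT g3 cW none := funext fun a => Subtype.ext (hc' a)
    have ex : x' = fun i => cz hT g3 cW (some i) 1 := funext fun i => Subtype.ext (hx' i)
    subst ec
    subst ex
    change φ2 (Φ2 _) = _
    rw [p5 (cz hT g3 cX none) (fun i => cz hT g3 cX (some i) 1) (fun a => rfl) fun i => rfl]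
    -- the classes on `Qs`
    set cM : ℕ → Subalgebra.center Ω (T.coh (Qs (C := C) h s)).H := cz hT g3 cQ (some (some none))
      with hcM
    set cM' : ℕ → Subalgebra.center Ω (T.coh (Qs (C := C) h s)).H := cz hT g3 cQ (some none)
      with hcM'
    set xQ : Fin k → Subalgebra.center Ω (T.coh (Qs (C := C) h s)).H :=
      fun i => cz hT g3 cQ (fa k s (some i)) 1 with hxQ
    have hxs : xQ ⟨s, hs⟩ = cz hT g3 cQ none 1 := by
      simp only [hxQ, fa, if_true]
      rfl
    have m1 : T.map f ((Th k d s (cz hT g3 cW none) (fun i => cz hT g3 cW (some i) 1) :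
        Subalgebra.center Ω (T.coh (St C h s)).H) : (T.coh (St C h s)).H) =
        ((Th k d s cM' xQ : Subalgebra.center Ω (T.coh (Qs (C := C) h s)).H) :
          (T.coh (Qs (C := C) h s)).H) :=
      map_cTh (T.map f) k d s (fun a => map_cz hT g3 f cQ cW none a)
        fun i => map_cz hT g3 f cQ cW (some i) 1
    have m2 : T.map f E = ((Rp s cM' (xQ ⟨s, hs⟩) :
        Subalgebra.center Ω (T.coh (Qs (C := C) h s)).H) : (T.coh (Qs (C := C) h s)).H) :=
      map_cRp (T.map f) s (fun a => map_cz hT g3 f cQ cW none a)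
        (map_cz hT g3 f cQ cW (some ⟨s, hs⟩) 1)
    have m3 : T.map (dn h s) ((Th k d (s + 1) (cz hT g3 cX none) (fun i => cz hT g3 cX (some i) 1) :
        Subalgebra.center Ω (T.coh (St C h (s + 1))).H) : (T.coh (St C h (s + 1))).H) =
        ((Th k d (s + 1) cM (fun i => cz hT g3 cQ (some (some (some i))) 1) :
          Subalgebra.center Ω (T.coh (Qs (C := C) h s)).H) : (T.coh (Qs (C := C) h s)).H) :=
      map_cTh (T.map (dn h s)) k d (s + 1) (fun a => map_cz hT g3 (dn h s) cQ cX none a)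
        fun i => map_cz hT g3 (dn h s) cQ cX (some i) 1
    have m4 : Th k d (s + 1) cM (fun i => cz hT g3 cQ (some (some (some i))) 1) =
        Th k d (s + 1) cM xQ := by
      refine Th_congr fun i hi => ?_
      simp only [hxQ]
      have : fa k s (some i) = some (some (some i)) := by
        simp only [fa]
        rw [if_neg (by omega)]
      rw [this]
      rfl
    -- the relations
    have r1 : ∃ w : Subalgebra.center Ω (T.coh (Qs (C := C) h s)).H,
        ∀ a, cM (a + 1) = cM' (a + 1) + cM' a * w :=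
      corank hT g3 c3 cQ (l := some none) (j := some (some none)) rfl fun z hz => hz.1.2.2
    obtain ⟨w, r1⟩ := r1
    have r2 : Rp (s + 1) cM (xQ ⟨s, hs⟩) = 0 := by
      rw [hxs]
      exact incidence hT g3 c2 cQ (l := none) (j := some (some none)) rfl
        fun z hz => hz.2.2
    have r3 : cM' (s + 1) = 0 := cz_above hT g3 cQ (Nat.lt_succ_self s)
    have key := c1 _ k d s hs cM cM' w xQ (cz_zero hT g3 cQ _) (cz_zero hT g3 cQ _) r1 r3 r2
    refine q5 _ _ ?_ ?_
    · rw [m1, m2, m3, m4, ← key, pow_two, ← mul_assoc]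
      rfl
    · rw [map_cTh (T.map (incl (St C h s) (Bs h hs) hB)) k d s (c' := cz hT g3 cB none)
        (x' := fun i => cz hT g3 cB (some i) 1) (fun a => hcB _ _) (fun i => hcB _ _),
        Th_zero hs inc]
      rfl

theorem all (hT : T.Good K q) (g3 : S_G3.{u, v}) (c1 : S_C1.{u}) (c2 : S_C2.{u}) (c3 : S_C3.{u})
    (a3 : S_A3) (b1 : S_B1) (b2 : S_B2) (g1 : S_G1.{u, v}) (g2 : S_G2.{u, v})
    (S : Setup (C := C) K h) (sat : Saturated C h) (d : ℕ) : Pst T q h d 0 := by
  have : ∀ m ≤ k, Pst T q h d (k - m) := by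
    intro m hm
    induction m with
    | zero => exact base_case d
    | succ m ih =>
      have e : k - m = (k - (m + 1)) + 1 := by omega
      have h1 := ih (by omega)
      rw [e] at h1
      exact step hT g3 c1 c2 c3 a3 b1 b2 g1 g2 S sat (by omega) h1
  have h1 := this k le_rfl
  rwa [Nat.sub_self] at h1

end Pool.Agent.H88.VG
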