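import Pool.Agent.H88.VG.Defs

/-!
# Varieties of subspaces: statements of the steps
-/

set_option autoImplicit false

open MvPolynomial Pool.Agent.Y129.TA Pool.Agent.Y129.TB Pool.Agent.H88.VL

universe u v

namespace Pool.Agent.H88.VG

/-! ### Algebra -/

/-- A1: as `Pool.Agent.H88.VL.S_W1` (proof in `Pool/Agent/H88/VL/W1.lean`), with the shift by `2 e`. -/
def S_A1 : Prop := ∀ (Ω : Type v) [Field Ω] [CharZero Ω] (q d e i : ℕ) (A B : Alg.{u, v} Ω)
  (f : A.H →ₗ[Ω] B.H) (t : B.H →ₗ[Ω] Ω) (τ : A.H →ₗ[Ω] Ω), 1 < q → A.IsLocal q → B.IsLocal q →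
  A.IsPoincare d → i ≤ 2 * d → (∀ j, ∀ x ∈ A.gr j, f x ∈ B.gr (j + 2 * e)) →
  (∀ x, B.F (f x) = (q : Ω) ^ e • f (A.F x)) → (∀ x, B.N (f x) = f (A.N x)) →
  (∀ x ∈ B.gr (2 * (d + 2 * e)), t (B.N x) = 0) → (∀ x ∈ A.gr (2 * d), x ≠ 0 → τ x ≠ 0) →
  (∀ x ∈ A.gr i, ∀ y ∈ A.gr (2 * d - i), t (f x * f y) = τ (x * y)) →
  B.MWPure q (i + 2 * e) → A.MWPure q i

/-- The Chern polynomial of rank `s` with the classes `c`, at `t`. -/
def Rp {R : Type u} [CommRing R] (s : ℕ) (c : ℕ → R) (t : R) : R :=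
  ∑ a ∈ Finset.range (s + 1), (-1) ^ a * c a * t ^ (s - a)

/-- The class of top degree. -/
def Th {R : Type u} [CommRing R] (k d s : ℕ) (c : ℕ → R) (x : Fin k → R) : R :=
  (c 1 + ∑ i ∈ Finset.univ.filter fun i : Fin k => s ≤ i.val, x i) ^ d *
    (∏ i ∈ Finset.univ.filter fun i : Fin k => s ≤ i.val, Rp s c (x i) ^ 2) *
    ∏ i ∈ Finset.univ.filter fun i : Fin k => s ≤ i.val, ∏ j ∈ Finset.Ioi i, (x i - x j) ^ 2

/-- C1: (`Rp (s + 1) c t = Rp s c' t * (t - l)`, hence with `E = Rp s c' (x s)` we have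
`(x s - l) * E = 0`.) -/
def S_C1 : Prop := ∀ (R : Type u) [CommRing R] (k d s : ℕ) (hs : s < k) (c c' : ℕ → R) (l : R)
  (x : Fin k → R), c 0 = 1 → c' 0 = 1 → (∀ a, c (a + 1) = c' (a + 1) + c' a * l) →
  c' (s + 1) = 0 → Rp (s + 1) c (x ⟨s, hs⟩) = 0 →
  Th k d (s + 1) c x * Rp s c' (x ⟨s, hs⟩) ^ 2 = Th k d s c' x

/-- C2 -/
def S_C2 : Prop := ∀ (R : Type u) [CommRing R] (r : ℕ) (c e w : ℕ → R),
  (∀ i, c i = ∑ a ∈ Finset.range (i + 1), e a * w (i - a)) → e 0 = 1 → (∀ a, 2 ≤ a → e a = 0) →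
  (∀ i, r ≤ i → w i = 0) → Rp r c (e 1) = 0

/-- C3 -/
def S_C3 : Prop := ∀ (R : Type u) [CommRing R] (c c' w : ℕ → R),
  (∀ i, c i = ∑ a ∈ Finset.range (i + 1), c' a * w (i - a)) → c 0 = 1 → c' 0 = 1 →
  (∀ i, 2 ≤ i → w i = 0) → ∀ a, c (a + 1) = c' (a + 1) + c' a * w 1

/-- The polynomial of Weyl. -/
noncomputable def weyl (k d : ℕ) : MvPolynomial (Fin k) ℤ :=
  (∑ i, X i) ^ d * ∏ i, ∏ j ∈ Finset.Ioi i, (X i - X j) ^ 2

/-- D2: the value of a linear form on a homogeneous polynomial in the classes `y` -/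
def S_D2 : Prop := ∀ (Ω : Type v) [Field Ω] [CharZero Ω] (R : Type u) [CommRing R] [Algebra Ω R]
  (k n c D : ℕ) (a : Fin c → Fin k → ℕ) (y : Fin k → R) (L : R →ₗ[Ω] Ω) (μ : Ω),
  (∀ e : Fin k → ℕ, ∑ i, e i = D → L (∏ i, y i ^ e i) = μ * (inter n a (∏ i, X i ^ e i) : ℤ)) →
  ∀ P : MvPolynomial (Fin k) ℤ, P.IsHomogeneous D → L (aeval y P) = μ * (inter n a P : ℤ)

/-- D3 -/
def S_D3 : Prop := ∀ k d : ℕ, (weyl k d).IsHomogeneous (d + k * (k - 1))

/-- D4 -/
def S_D4 : Prop := ∀ (R : Type u) [CommRing R] (k d : ℕ) (c : ℕ → R) (x : Fin k → R),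
  c 0 = 1 → c 1 = 0 → Th k d 0 c x = aeval x (weyl k d)

/-- E1a: the coefficient of the product of the `X i ^ (n - 1)`: expand `∏ (X i - X j)` (a Vandermonde
determinant) as a sum over the permutations; the coefficient is
`k! * N! * ∑ τ, sign τ * ∏ i, 1 / (n - 1 - i - τ i)!` (with `1 / m! = 0` for `m < 0`). -/
def S_E1a : Prop := ∀ k n N : ℕ, k ≤ n → N = k * (n - k) →
  ((coeff (Finsupp.equivFunOnFinite.symm fun _ => n - 1) (weyl k N) : ℤ) : ℚ) =
    k.factorial * N.factorial * (Matrix.of fun i j : Fin k =>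
      if i.val + j.val ≤ n - 1 then ((n - 1 - i.val - j.val).factorial : ℚ)⁻¹ else 0).det

/-- E1b: the determinant: `1 / (m - i - j)! = (m - i).descFactorial j / (m - i)!`, Vandermonde. -/
def S_E1b : Prop := ∀ k n : ℕ, k ≤ n → (Matrix.of fun i j : Fin k =>
  if i.val + j.val ≤ n - 1 then ((n - 1 - i.val - j.val).factorial : ℚ)⁻¹ else 0).det ≠ 0

/-- E3 -/
def S_E3 : Prop := ∀ (k n c d : ℕ) (a : Fin c → ℕ),
  inter n (fun j (_ : Fin k) => a j) (weyl k d) =
    (∏ j, (a j : ℤ)) * coeff (Finsupp.equivFunOnFinite.symm fun _ => n - 1) (weyl k (d + c))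

/-- E2: polynomials `P` with `P(g v) = det(g) ^ a P(v)`, `a > 0` -/
def S_E2 : Prop := ∀ (C K : Type) [Field C] [Infinite C] [Field K] [Algebra K C] (k n c : ℕ)
  (h : Fin c → MvPolynomial (Fin k × Fin n) K) (a : Fin c → ℕ), (∀ j, 0 < a j) → 0 < k →
  (∀ j (v : Fin k → Fin n → C) (g : Matrix (Fin k) (Fin k) C),
    value C (h j) (fun i => ∑ l, g i l • v l) = g.det ^ a j * value C (h j) v) →
  (∀ j, MultiHom (h j) fun _ => a j) ∧ Saturated C h

/-- F1 -/
def S_F1 : Prop := ∀ (p : ℕ) (C F K : Type) [Field C] [Field F] [Field K] [Algebra K C],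
  TiltPair p C F → Infinite K

/-- D1: the approximation (from `Pool.Agent.Y129.TB.X271TM.approxW` in
`Pool/Agent/H88/L/X271/TmApp.lean`) -/
def S_D1 : Prop := ∀ (p : ℕ) [Fact p.Prime] (C F K E : Type) [Field C] [Field F] [CharP F p]
  [Field K] [Field E] [Algebra K C] [Algebra E F] [IsAlgClosed F] (𝓣 : Tilting p C F)
  (_ : BaseField 𝓣 K E) (k n c : ℕ) (h : Fin c → MvPolynomial (Fin k × Fin n) K)
  (a : Fin c → Fin k → ℕ), (∀ j, MultiHom (h j) (a j)) → Approximable 𝓣.toTiltPair E h a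

/-! ### Closed sets -/

/-- A2: substitute `v i = ∑ l, g i l • u (b i) l` for all matrices `g` over `K` in the equations; a
polynomial in the entries of `g` over `C` with zero values over the infinite field `K` is zero. -/
def S_A2 : Prop := ∀ (C K : Type) [Field C] [Field K] [Algebra K C] [Infinite K] (k n c : ℕ)
  (h : Fin c → MvPolynomial (Fin k × Fin n) K) (J : Type) [Finite J] (r : J → ℕ) (b : Fin k → J),
  (locus C h r b).IsClosed K

/-- A3: the inverse image of a closed set is closed -/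
def S_A3 : Prop := ∀ (C K : Type) [Field C] [Field K] [Algebra K C] (n : ℕ) (X Y : GSet C n)
  (f : Mor X Y) (B : Set (Y.J → Submodule C (Fin n → C))), X.IsClosed K → (Y.sub B).IsClosed K →
  (X.sub (f.pre B)).IsClosed K

/-- A4 -/
def S_A4 : Prop := ∀ (C K : Type) [Field C] [Field K] [Algebra K C] (n : ℕ) (X : GSet C n),
  X.IsClosed K → (X.sub ∅).IsClosed K

/-- A5: the product of `X` and a Grassmannian -/
def S_A5 : Prop := ∀ (C K : Type) [Field C] [Field K] [Algebra K C] (n : ℕ) (X : GSet C n) (s : ℕ),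
  X.IsClosed K → (⟨Option X.J, fun o => o.elim s X.r, {z | (fun i => z (some i)) ∈ X.pts ∧
    Module.finrank C (z none) = s}⟩ : GSet C n).IsClosed K

/-- A6: incidence: `v l b` is in the span of the independent family `v j` if and only if all the minors
of size `r j + 1` of the matrix with the rows `v j` and `v l b` are zero (or: all determinants with
further rows which are standard basis vectors). -/
def S_A6 : Prop := ∀ (C K : Type) [Field C] [Field K] [Algebra K C] (n : ℕ) (X : GSet C n)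
  (l j : X.J), X.IsClosed K → (X.sub {x | x ∈ X.pts ∧ x l ≤ x j}).IsClosed K

/-! ### Geometry of one step -/

/-- B1 -/
def S_B1 : Prop := ∀ (C K : Type) [Field C] [Field K] [Algebra K C] (k n c : ℕ)
  (h : Fin c → MvPolynomial (Fin k × Fin n) K) (s : ℕ), s < k →
  (∀ o, (Qs (C := C) h s).r (fa k s o) = (St C h s).r o) ∧
  ∀ z ∈ (Qs (C := C) h s).pts, (fun o => z (fa k s o)) ∈ (St C h s).pts

/-- B2: `M` is the sum of `M'` and `x` if `x` is not contained in `M'` (use `Saturated` for the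
surjectivity). -/
def S_B2 : Prop := ∀ (C K : Type) [Field C] [Field K] [Algebra K C] (k n c : ℕ)
  (h : Fin c → MvPolynomial (Fin k × Fin n) K) (s : ℕ) (hs : s < k), Saturated C h →
  ∀ f : Mor (Qs h s) (St C h s), f.a = fa k s → f.BijOff (Bs h hs)

/-- B4a -/
def S_B4a : Prop := ∀ (C K : Type) [Field C] [Field K] [Algebra K C] (k n c : ℕ)
  (h : Fin c → MvPolynomial (Fin k × Fin n) K),
  (∀ z ∈ (St C h k).pts, (fun _ : Unit => z none) ∈ (grass C h).pts) ∧
  ∀ f : Mor (St C h k) (grass C h), (∀ j, f.a j = none) → f.BijOff ∅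

/-- B4b -/
def S_B4b : Prop := ∀ (C K : Type) [Field C] [Field K] [Algebra K C] (k n c : ℕ)
  (h : Fin c → MvPolynomial (Fin k × Fin n) K),
  (∀ z ∈ (St C h 0).pts, (fun i : Fin k => z (some i)) ∈ (zeros C h).pts) ∧
  ∀ f : Mor (St C h 0) (zeros C h), (∀ j, f.a j = some j) → f.BijOff ∅

/-! ### Cohomology -/

/-- G1: the maps `φ` and `φ2` of one step. Existence on `gr i` by `descent` (with `b = 0`) and
additivity, uniqueness by `descent_unique`. -/
def S_G1 : Prop := ∀ (C : Type) [Field C] (n : ℕ) (Ω : Type v) [Field Ω] [CharZero Ω]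
  (T : Theory.{u, v} C n Ω) (K : Type) [Field K] [Algebra K C] (q : ℕ), T.Good K q →
  ∀ (X Q W : GSet C n) (g : Mor Q X) (f : Mor Q W)
    (B : Set (W.J → Submodule C (Fin n → C))) (hB : B ⊆ W.pts) (E : (T.coh W).H) (e : ℕ),
  X.IsClosed K → Q.IsClosed K → W.IsClosed K → (W.sub B).IsClosed K →
  (Q.sub (f.pre B)).IsClosed K → f.BijOff B →
  Function.Surjective (T.map (incl Q (f.pre B) fun _ h => h.1)) →
  E ∈ (T.coh W).gr (2 * e) → (T.coh W).F E = (q : Ω) ^ e • E → (T.coh W).N E = 0 →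
  T.map (incl W B hB) E = 0 →
  ∃ φ φ2 : (T.coh X).H →ₗ[Ω] (T.coh W).H,
    (∀ i x, x ∈ (T.coh X).gr i → φ x ∈ (T.coh W).gr (i + 2 * e)) ∧
    (∀ x, (T.coh W).F (φ x) = (q : Ω) ^ e • φ ((T.coh X).F x)) ∧
    (∀ x, (T.coh W).N (φ x) = φ ((T.coh X).N x)) ∧ (∀ x y, φ x * φ y = φ2 (x * y)) ∧
    ∀ x z, T.map f z = T.map g x * T.map f E * T.map f E → T.map (incl W B hB) z = 0 → φ2 x = z

/-- G2: the restriction to the set where `x` is contained in `M'` is surjective (by `bundles` for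
`(Fl h s).subs none 1`, which has the same factors and the same points as this set) -/
def S_G2 : Prop := ∀ (C : Type) [Field C] (n : ℕ) (Ω : Type v) [Field Ω]
  (T : Theory.{u, v} C n Ω) (K : Type) [Field K] [Algebra K C] (q : ℕ), T.Good K q →
  ∀ (k c : ℕ) (h : Fin c → MvPolynomial (Fin k × Fin n) K) (s : ℕ) (hs : s < k)
    (f : Mor (Qs h s) (St C h s)), f.a = fa k s → (Fl (C := C) h s).IsClosed K →
    (Qs (C := C) h s).IsClosed K → ((Fl (C := C) h s).subs none 1).IsClosed K →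
    ((Qs h s).sub (f.pre (Bs h hs))).IsClosed K →
    Function.Surjective (T.map (incl (Qs h s) (f.pre (Bs h hs)) fun _ h => h.1))

/-- G3: homogeneous elements of even degree are central. -/
def S_G3 : Prop := ∀ (Ω : Type v) [Field Ω] (q : ℕ) (A : Alg.{u, v} Ω), A.IsLocal q →
  ∀ i, ∀ x ∈ A.gr (2 * i), ∀ y, x * y = y * x

/-- G4: a bijective morphism induces an isomorphism. -/
def S_G4 : Prop := ∀ (C : Type) [Field C] (n : ℕ) (Ω : Type v) [Field Ω]
  (T : Theory.{u, v} C n Ω) (K : Type) [Field K] [Algebra K C] (q : ℕ), T.Good K q → S_A3 → S_A4 →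
  ∀ (X Y : GSet C n) (f : Mor X Y), X.IsClosed K → Y.IsClosed K → f.BijOff ∅ →
    Function.Bijective (T.map f) ∧ ∀ i y, T.map f y ∈ (T.coh X).gr i → y ∈ (T.coh Y).gr i

end Pool.Agent.H88.VG
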