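import Pool.Agent.H88.VG.Base

/-!
# The property given by tilting
-/

set_option autoImplicit false

open MvPolynomial Pool.Agent.Y129.TA Pool.Agent.Y129.TB Pool.Agent.H88.VL

universe u v

namespace Pool.Agent.H88.VG

variable {C : Type} [Field C] {n : ℕ}

/-- For all `ε` there are multihomogeneous `g j` over `E`, of degrees `p ^ M j` times the ones of the
`h j`, such that `|h j (t♯)| ≤ ε` for all common zeros `t` of the `g j` with `|t i| ≤ 1`. -/
def Approximable {p : ℕ} {F : Type} [Field F] (𝓣 : TiltPair p C F) {K : Type} (E : Type) [Field K]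
    [Field E] [Algebra K C] [Algebra E F] {k n c : ℕ} (h : Fin c → MvPolynomial (Fin k × Fin n) K)
    (a : Fin c → Fin k → ℕ) : Prop :=
  ∀ ε : ℝ, 0 < ε → ∃ (M : Fin c → ℕ) (g : Fin c → MvPolynomial (Fin k × Fin n) E),
    (∀ j, MultiHom (g j) fun i => p ^ M j * a j i) ∧
    ∀ t : Fin k → Fin n → F, (∀ i l, 𝓣.absF (t i l) ≤ 1) → (∀ j, value F (g j) t = 0) →
      ∀ j, 𝓣.absK (value C (h j) fun i l => 𝓣.sharp (t i l)) ≤ ε

variable {Ω : Type v} [Field Ω] (K : Type) [Field K] [Algebra K C] (q : ℕ)

variable (T : Theory.{u, v} C n Ω)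

/-- The property of the cohomology of the set of the zeros of the `h j` given by tilting, for the
dimension `D`: there are a local algebra `A`, mw pure in all degrees (the product of the cohomology
algebras of regular alterations of the components of a cycle of dimension `D` on the set of the zeros of
the `g j`), and a homomorphism to `A` such that the traces of the images of the monomials in the
hyperplane classes are the intersection numbers, up to a constant. -/
def Theory.Special [CharZero Ω] {k c : ℕ} (h : Fin c → MvPolynomial (Fin k × Fin n) K)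
    (a : Fin c → Fin k → ℕ) (D : ℕ) : Prop :=
  ∃ (A : Alg.{u, v} Ω) (s : (T.coh (zeros C h)).Hom A) (t : A.Trace q D) (μ : Ω), A.Local q ∧
    (∀ i, A.MWPure q i) ∧ μ ≠ 0 ∧ ∀ e : Fin k → ℕ, ∑ i, e i = D →
      t.t (s.s (List.ofFn fun i : Fin k => T.chern (zeros C h) i 1 ^ e i).prod) =
        μ * (inter n a (∏ i, X i ^ e i) : ℤ)

/-- The known properties of the `ℓ`-adic cohomology of the closed subsets, defined over the perfectoid
field `K`, of products of Grassmannians over `C`. The last one is tilting (Huber, Scholze, Deligne). -/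
structure Theory.Ladic {p : ℕ} [Fact p.Prime] {F : Type} [Field F] (𝓣 : Tilting p C F) (E : Type)
    [Field E] [Algebra E F] [CharZero Ω] : Prop extends T.Functorial K q, T.Chern K q,
      T.Descent K where
  bundles : T.Bundles K
  tilting : ∀ {k c : ℕ} (h : Fin c → MvPolynomial (Fin k × Fin n) K) (a : Fin c → Fin k → ℕ)
    (D : ℕ), 0 < n → (∀ j, MultiHom (h j) (a j)) → D + c = k * (n - 1) →
    Approximable 𝓣.toTiltPair E h a → T.Special K q h a D

end Pool.Agent.H88.VG
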